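import Pool.Agent.P.MP_7e6317_an.Base

/-!
Geometric approximation of even periodic entire functions by polynomials in the cosine.
-/

namespace Pool.Agent.P.MP_7e6317_an

open Set Filter Topology Complex MeasureTheory Metric Polynomial

lemma cheb_approx {g : ℂ → ℂ} (hd : Differentiable ℂ g)
    (hper : ∀ z, g (z + (2 * Real.pi : ℝ)) = g z) (heven : ∀ z, g (-z) = g z) {η B : ℝ}
    (hη : 0 < η) (hB : ∀ t : ℝ, ‖g (t - η * I)‖ ≤ B) (N : ℕ) :
    ∃ P : ℝ[X], P.natDegree ≤ N ∧ ∀ t : ℝ,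
      |P.eval (Real.cos t) - (g t).re| ≤ 2 * B * Real.exp (-η) ^ (N + 1) / (1 - Real.exp (-η)) := by
  have hT : Fact (0 < 2 * Real.pi) := ⟨Real.two_pi_pos⟩
  set f : ℤ → ℂ → ℂ := fun k z => Complex.exp (-(k * z * I)) * g z with hf
  have hfd : ∀ k, Differentiable ℂ (f k) := fun k => by simp only [hf]; fun_prop
  have hfp : ∀ k z, f k (z + (2 * Real.pi : ℝ)) = f k z := by
    intro k z
    simp only [hf, hper]
    congr 1
    have := Complex.exp_int_mul_two_pi_mul_I (-k)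
    rw [← mul_one (Complex.exp (-(k * z * I))), ← this, ← Complex.exp_add]
    congr 1; push_cast; ring
  set c : ℤ → ℂ := fun k => (1 / (2 * Real.pi) : ℝ) • ∫ x in (0 : ℝ)..2 * Real.pi, f k x with hc
  have hc1 : ∀ k : ℕ, ‖c k‖ ≤ B * Real.exp (-η) ^ k := by
    intro k
    have h1 := Complex.integral_boundary_rect_eq_zero_of_differentiableOn (f k) (-(η * I))
      (2 * Real.pi : ℝ) (hfd k).differentiableOn
    have h2 : ∀ y : ℝ, f k (((2 * Real.pi : ℝ) : ℂ) + y * I) = f k (((0 : ℝ) : ℂ) + y * I) := by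
      intro y; rw [add_comm, hfp]; simp
    simp only [neg_re, mul_re, ofReal_re, I_re, mul_zero, ofReal_im, I_im, mul_one, sub_self,
      neg_zero, neg_im, mul_im, add_zero, h2, ofReal_zero, zero_mul] at h1
    have h3 : ∫ x in (0 : ℝ)..2 * Real.pi, f k x =
        ∫ x in (0 : ℝ)..2 * Real.pi, f k (x + ((-η : ℝ) : ℂ) * I) := by linear_combination -h1
    have h4 : ‖∫ x in (0 : ℝ)..2 * Real.pi, f k (x + ((-η : ℝ) : ℂ) * I)‖ ≤
        B * Real.exp (-η) ^ k * |2 * Real.pi - 0| := by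
      refine intervalIntegral.norm_integral_le_of_norm_le_const fun x _ => ?_
      simp only [hf, norm_mul, Complex.norm_exp]
      have e1 : (-(((k : ℤ) : ℂ) * (x + ((-η : ℝ) : ℂ) * I) * I)).re = k * -η := by simp
      have e2 : (x : ℂ) + ((-η : ℝ) : ℂ) * I = x - η * I := by push_cast; ring
      rw [e1, e2, Real.exp_nat_mul, mul_comm]
      gcongr
      exact hB x
    simp only [hc]
    rw [h3, norm_smul, Real.norm_of_nonneg (by positivity)]
    rw [sub_zero, abs_of_pos Real.two_pi_pos] at h4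
    calc _ ≤ 1 / (2 * Real.pi) * (B * Real.exp (-η) ^ k * (2 * Real.pi)) := by gcongr
      _ = _ := by field_simp
  have hc2 : ∀ k : ℤ, c (-k) = c k := by
    intro k
    simp only [hc]
    congr 1
    have h1 : ∀ x : ℝ, f (-k) x = (fun y : ℝ => f k y) (-x) := by
      intro x
      simp only [hf, Complex.ofReal_neg, heven]
      congr 2; push_cast; ring
    simp only [h1]
    rw [intervalIntegral.integral_comp_neg (fun y : ℝ => f k y)]
    have hp : Function.Periodic (fun y : ℝ => f k y) (2 * Real.pi) := fun y => by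
      simp only [Complex.ofReal_add, hfp]
    have := hp.intervalIntegral_add_eq (-(2 * Real.pi)) 0
    simpa using this
  have hp : Function.Periodic (fun y : ℝ => g y) (2 * Real.pi) := fun y => by
    simp only [Complex.ofReal_add, hper]
  have hgc : Continuous fun y : ℝ => g y := hd.continuous.comp Complex.continuous_ofReal
  let F : C(AddCircle (2 * Real.pi), ℂ) := ⟨hp.lift, hgc.quotient_liftOn' _⟩
  have hF : ∀ x : ℝ, F x = g x := fun x => hp.lift_coe x
  have hfour : ∀ (k : ℤ) (x : ℝ), fourier k (x : AddCircle (2 * Real.pi)) =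
      Complex.exp (k * x * I) := by
    intro k x
    rw [fourier_coe_apply]
    congr 1
    have : (Real.pi : ℂ) ≠ 0 := by exact_mod_cast Real.pi_ne_zero
    push_cast; field_simp
  have hcoef : ∀ k, fourierCoeff F k = c k := by
    intro k
    rw [fourierCoeff_eq_intervalIntegral _ _ 0, zero_add]
    simp only [hc, hF, hfour, hf, smul_eq_mul]
    congr 3
    ext x; congr 2; push_cast; ring
  have hr0 : 0 ≤ Real.exp (-η) := (Real.exp_pos _).le
  have hr1 : Real.exp (-η) < 1 := Real.exp_lt_one_iff.2 (by linarith)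
  have hsN : Summable fun k : ℕ => c k :=
    .of_norm_bounded ((summable_geometric_of_lt_one hr0 hr1).mul_left B) hc1
  have hs : Summable (fourierCoeff F) := by
    rw [funext hcoef]
    exact Summable.of_nat_of_neg hsN (by simpa only [hc2] using hsN)
  refine ⟨∑ k ∈ Finset.range (N + 1), C (2 * (c k).re) * Chebyshev.T ℝ k - C (c 0).re, ?_,
    fun t => ?_⟩
  · refine (natDegree_sub_le _ _).trans (max_le ?_ (by simp))
    refine natDegree_sum_le_of_forall_le _ _ fun k hk => (natDegree_C_mul_le _ _).trans ?_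
    rw [Chebyshev.natDegree_T]
    simpa [Nat.lt_succ_iff] using hk
  · have h1 := (has_pointwise_sum_fourier_series_of_summable hs (t : AddCircle (2 * Real.pi))).nat_add_neg
    simp only [hcoef, hc2, hfour, hF, smul_eq_mul] at h1
    have h2 : ∀ k : ℕ, c k * Complex.exp (((k : ℤ) : ℂ) * t * I) +
        c k * Complex.exp (((-(k : ℤ) : ℤ) : ℂ) * t * I) =
        ((2 * Real.cos (k * t) : ℝ) : ℂ) * c k := by
      intro k
      push_cast
      rw [Complex.two_cos]
      ring_nf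
    simp only [h2] at h1
    have h3 := Complex.hasSum_re h1
    simp only [Complex.re_ofReal_mul, Int.cast_zero, zero_mul, Complex.exp_zero, mul_one,
      Complex.add_re] at h3
    have h4 := norm_sub_le_of_geometric_bound_of_hasSum (C := 2 * B) hr1 (fun k => by
      rw [norm_mul, norm_mul, Real.norm_ofNat, mul_assoc, mul_assoc]
      refine mul_le_mul_of_nonneg_left ?_ zero_le_two
      calc ‖Real.cos (k * t)‖ * ‖(c k).re‖ ≤ 1 * ‖c k‖ := by
            gcongr
            exacts [Real.abs_cos_le_one _, Complex.abs_re_le_norm _]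
        _ ≤ _ := by rw [one_mul]; exact hc1 k) h3 (N + 1)
    rw [Real.norm_eq_abs] at h4
    convert h4 using 2
    simp only [eval_sub, eval_finsetSum, eval_mul, eval_C, Chebyshev.T_real_cos, Int.cast_natCast]
    rw [sub_sub, add_comm (c 0).re]
    congr 1
    exact Finset.sum_congr rfl fun k _ => by ring

lemma TypeOne.norm_real {F : ℂ → ℂ} (hF : TypeOne F) (u : ℝ) : ‖F u‖ = |(F u).re| := by
  rw [← Complex.abs_re_eq_norm.2 (hF.2.1 u)]

lemma exists_eta {q : ℝ} (hq : q < 1) : ∃ η : ℝ, 0 < η ∧ q * Real.sinh η < η := by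
  have h1 : HasDerivAt (fun x => x - q * Real.sinh x) (1 - q) 0 := by
    have := (hasDerivAt_id (0 : ℝ)).sub ((Real.hasDerivAt_sinh 0).const_mul q)
    rw [Real.cosh_zero, mul_one] at this
    exact this
  have h2 := (hasDerivAt_iff_tendsto_slope_zero.1 h1).mono_left (nhdsGT_le_nhdsNE 0)
  obtain ⟨η, h3, h4⟩ := ((h2.eventually (lt_mem_nhds (by linarith : (0 : ℝ) < 1 - q))).and
    self_mem_nhdsWithin).exists
  have h5 : 0 < η := h4
  simp only [zero_add, Real.sinh_zero, mul_zero, sub_self, sub_zero, smul_eq_mul] at h3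
  exact ⟨η, h5, by linarith [(mul_pos_iff_of_pos_left (inv_pos.2 h5)).1 h3]⟩

lemma poly_approx {F s : ℂ → ℂ} (hF : TypeOne F) {M : ℝ}
    (hM : ∀ u : ℝ, |(F u).re| ≤ M * (1 + u ^ 2)) (hsd : Differentiable ℂ s)
    (hsp : ∀ z, s (z + (2 * Real.pi : ℝ)) = s z) (hse : ∀ c z, F (c * s (-z)) = F (c * s z))
    (hs1 : ∀ z, ‖s z‖ ≤ Real.exp |z.im|)
    (hs2 : ∀ t η : ℝ, 0 < η → |(s (t - η * I)).im| ≤ Real.sinh η)
    {ρ : ℝ} (hρ0 : 0 < ρ) (hρ1 : ρ < 1) (m : ℕ) {ε : ℝ} (hε : 0 < ε) :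
    ∀ᶠ N : ℕ in atTop, ∃ P : ℝ[X], P.natDegree + m ≤ N ∧
      ∀ t : ℝ, |P.eval (Real.cos t) - (F ((ρ * N : ℝ) * s t)).re| ≤ ε / (N : ℝ) ^ 2 := by
  obtain ⟨η, hη, hη'⟩ := exists_eta (q := (1 + (1 - ρ)) * ρ) (by nlinarith)
  obtain ⟨C, hC⟩ := hF.2.2 (1 - ρ) (by linarith)
  have hM0 : 0 ≤ M := by
    have := (abs_nonneg _).trans (hM 0)
    simpa using this
  have hpl := pl_bound hF.1 (by linarith) hC (M := M) fun u => by rw [hF.norm_real]; exact hM u
  set γ := η - (1 + (1 - ρ)) * ρ * Real.sinh η with hγ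
  have hγ0 : 0 < γ := by linarith
  obtain ⟨D, hD0, hD⟩ := sq_le_exp (half_pos hγ0)
  have hr1 : 0 < 1 - Real.exp (-η) := by
    have := Real.exp_lt_one_iff.2 (by linarith : -η < 0)
    linarith
  set K := 2 * M * Real.exp η ^ 2 * Real.exp (η * m) / (1 - Real.exp (-η)) * D with hK
  have hlim : Tendsto (fun N : ℕ => K * Real.exp (-(γ / 2 * N))) atTop (𝓝 (K * 0)) :=
    (Real.tendsto_exp_neg_atTop_nhds_zero.comp
      (tendsto_natCast_atTop_atTop.const_mul_atTop (half_pos hγ0))).const_mul K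
  filter_upwards [hlim.eventually (gt_mem_nhds (by simpa using hε : K * 0 < ε)),
    eventually_ge_atTop m, eventually_ge_atTop 1] with N h1 h2 h3
  have hN : (1 : ℝ) ≤ N := by exact_mod_cast h3
  have he1 : 1 ≤ Real.exp η := Real.one_le_exp hη.le
  obtain ⟨P, hP1, hP2⟩ := cheb_approx (g := fun z => F ((ρ * N : ℝ) * s z))
    (hF.1.comp (hsd.const_mul _)) (fun z => by simp only [hsp]) (fun z => hse _ z) hη
    (B := M * (Real.exp η * (1 + N)) ^ 2 * Real.exp ((1 + (1 - ρ)) * (ρ * N * Real.sinh η)))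
    (fun t => (hpl _).trans (by
      have e1 : ‖((ρ * N : ℝ) : ℂ) * s (t - η * I)‖ ≤ N * Real.exp η := by
        rw [norm_mul, Complex.norm_real, Real.norm_of_nonneg (by positivity)]
        have := hs1 (t - η * I)
        simp only [sub_im, ofReal_im, mul_im, ofReal_re, I_im, mul_one, I_re, mul_zero, add_zero,
          zero_sub, abs_neg, abs_of_pos hη] at this
        gcongr
        nlinarith
      have e2 : |(((ρ * N : ℝ) : ℂ) * s (t - η * I)).im| ≤ ρ * N * Real.sinh η := by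
        rw [Complex.im_ofReal_mul, abs_mul, abs_of_pos (by positivity)]
        gcongr
        exact hs2 t η hη
      have e3 : 0 ≤ 1 + (1 - ρ) := by linarith
      gcongr
      nlinarith)) (N - m)
  refine ⟨P, by omega, fun t => (hP2 t).trans ?_⟩
  rw [le_div_iff₀ (by positivity)]
  refine le_trans ?_ h1.le
  have e1 : Real.exp (-η) ^ (N - m + 1) ≤ Real.exp (η * m) * Real.exp (-(η * N)) := by
    rw [← Real.exp_nat_mul, ← Real.exp_add]
    refine Real.exp_le_exp.2 ?_
    push_cast [h2]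
    nlinarith
  have e2 : Real.exp ((1 + (1 - ρ)) * (ρ * N * Real.sinh η)) * Real.exp (-(η * N)) *
      Real.exp (γ / 2 * N) = Real.exp (-(γ / 2 * N)) := by
    rw [← Real.exp_add, ← Real.exp_add]; congr 1; rw [hγ]; ring
  have e3 : (1 + (N : ℝ)) ^ 2 * N ^ 2 ≤ D * Real.exp (γ / 2 * N) := by
    refine le_trans ?_ (hD N (by positivity))
    have : (N : ℝ) ^ 2 ≤ (1 + N) ^ 2 := by gcongr; linarith
    calc (1 + (N : ℝ)) ^ 2 * N ^ 2 ≤ (1 + N) ^ 2 * (1 + N) ^ 2 := by gcongr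
      _ = _ := by ring
  calc _ ≤ 2 * (M * (Real.exp η * (1 + N)) ^ 2 *
        Real.exp ((1 + (1 - ρ)) * (ρ * N * Real.sinh η))) *
        (Real.exp (η * m) * Real.exp (-(η * N))) / (1 - Real.exp (-η)) * N ^ 2 := by gcongr
    _ = 2 * M * Real.exp η ^ 2 * Real.exp (η * m) / (1 - Real.exp (-η)) *
        (Real.exp ((1 + (1 - ρ)) * (ρ * N * Real.sinh η)) * Real.exp (-(η * N))) *
        ((1 + N) ^ 2 * N ^ 2) := by ring
    _ ≤ 2 * M * Real.exp η ^ 2 * Real.exp (η * m) / (1 - Real.exp (-η)) *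
        (Real.exp ((1 + (1 - ρ)) * (ρ * N * Real.sinh η)) * Real.exp (-(η * N))) *
        (D * Real.exp (γ / 2 * N)) := by gcongr
    _ = _ := by rw [← e2, hK]; ring

/-- Approximation of `F (ρ N x)` on `[-1, 1]`. -/
lemma poly_approx_lin {F : ℂ → ℂ} (hF : TypeOne F) {M : ℝ}
    (hM : ∀ u : ℝ, |(F u).re| ≤ M * (1 + u ^ 2))
    {ρ : ℝ} (hρ0 : 0 < ρ) (hρ1 : ρ < 1) (m : ℕ) {ε : ℝ} (hε : 0 < ε) :
    ∀ᶠ N : ℕ in atTop, ∃ P : ℝ[X], P.natDegree + m ≤ N ∧
      ∀ x ∈ Icc (-1 : ℝ) 1, |P.eval x - (F ((ρ * N * x : ℝ))).re| ≤ ε / (N : ℝ) ^ 2 := by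
  refine (poly_approx hF hM Complex.differentiable_cos
    (fun z => by push_cast; exact Complex.cos_add_two_pi z) (fun c z => by rw [Complex.cos_neg])
    norm_cos_le (fun t η hη => ?_) hρ0 hρ1 m hε).mono ?_
  · have : (t : ℂ) - η * I = t + ((-η : ℝ) : ℂ) * I := by push_cast; ring
    rw [this, Complex.cos_add_mul_I, ← Complex.ofReal_cos, ← Complex.ofReal_sin,
      ← Complex.ofReal_cosh, ← Complex.ofReal_sinh]
    simp only [sub_im, mul_im, ofReal_re, ofReal_im, mul_zero, zero_mul, add_zero, mul_re,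
      sub_zero, I_im, mul_one, I_re, zero_sub, abs_neg, abs_mul, Real.sinh_neg]
    rw [abs_of_pos (Real.sinh_pos_iff.2 hη)]
    exact mul_le_of_le_one_left (Real.sinh_pos_iff.2 hη).le (Real.abs_sin_le_one t)
  · rintro N ⟨P, h1, h2⟩
    refine ⟨P, h1, fun x hx => ?_⟩
    have := h2 (Real.arccos x)
    rwa [← Complex.ofReal_cos, Real.cos_arccos hx.1 hx.2, ← Complex.ofReal_mul] at this

/-- Approximation of `F (ρ N √(1 - x^2))` on `[-1, 1]` for even `F`. -/
lemma poly_approx_sq {F : ℂ → ℂ} (hF : TypeOne F) (he : ∀ z, F (-z) = F z) {M : ℝ}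
    (hM : ∀ u : ℝ, |(F u).re| ≤ M * (1 + u ^ 2))
    {ρ : ℝ} (hρ0 : 0 < ρ) (hρ1 : ρ < 1) (m : ℕ) {ε : ℝ} (hε : 0 < ε) :
    ∀ᶠ N : ℕ in atTop, ∃ P : ℝ[X], P.natDegree + m ≤ N ∧ ∀ x ∈ Icc (-1 : ℝ) 1,
      |P.eval x - (F ((ρ * N * √(1 - x ^ 2) : ℝ))).re| ≤ ε / (N : ℝ) ^ 2 := by
  refine (poly_approx hF hM Complex.differentiable_sin
    (fun z => by push_cast; exact Complex.sin_add_two_pi z)
    (fun c z => by rw [Complex.sin_neg, mul_neg, he])
    norm_sin_le (fun t η hη => ?_) hρ0 hρ1 m hε).mono ?_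
  · have : (t : ℂ) - η * I = t + ((-η : ℝ) : ℂ) * I := by push_cast; ring
    rw [this, Complex.sin_add_mul_I, ← Complex.ofReal_cos, ← Complex.ofReal_sin,
      ← Complex.ofReal_cosh, ← Complex.ofReal_sinh]
    simp only [add_im, mul_im, ofReal_re, ofReal_im, mul_zero, zero_mul, add_zero, mul_re,
      sub_zero, I_im, mul_one, I_re, zero_add, abs_neg, abs_mul, Real.sinh_neg]
    rw [abs_of_pos (Real.sinh_pos_iff.2 hη)]
    exact mul_le_of_le_one_left (Real.sinh_pos_iff.2 hη).le (Real.abs_cos_le_one t)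
  · rintro N ⟨P, h1, h2⟩
    refine ⟨P, h1, fun x hx => ?_⟩
    have := h2 (Real.arccos x)
    rwa [← Complex.ofReal_sin, Real.cos_arccos hx.1 hx.2, Real.sin_arccos,
      ← Complex.ofReal_mul] at this

end Pool.Agent.P.MP_7e6317_an
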