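import Pool.Agent.P.MP_7e6317_an.Entire

/-!
An explicit entire function of exponential type one that is close to `|u|^μ` on the real line.
-/

namespace Pool.Agent.P.MP_7e6317_an

open Set Filter Topology Complex MeasureTheory Metric

lemma norm_sin_le (w : ℂ) : ‖Complex.sin w‖ ≤ Real.exp |w.im| := by
  have h1 : ‖Complex.exp (-w * I)‖ ≤ Real.exp |w.im| := by
    rw [Complex.norm_exp]; exact Real.exp_le_exp.2 (by simpa using le_abs_self w.im)
  have h2 : ‖Complex.exp (w * I)‖ ≤ Real.exp |w.im| := by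
    rw [Complex.norm_exp]; exact Real.exp_le_exp.2 (by simpa using neg_le_abs w.im)
  have h3 := norm_sub_le (Complex.exp (-w * I)) (Complex.exp (w * I))
  rw [Complex.sin, norm_div, norm_mul, Complex.norm_I, mul_one]
  simp only [Complex.norm_ofNat]
  linarith

lemma norm_cos_le (w : ℂ) : ‖Complex.cos w‖ ≤ Real.exp |w.im| := by
  have h1 : ‖Complex.exp (-w * I)‖ ≤ Real.exp |w.im| := by
    rw [Complex.norm_exp]; exact Real.exp_le_exp.2 (by simpa using le_abs_self w.im)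
  have h2 : ‖Complex.exp (w * I)‖ ≤ Real.exp |w.im| := by
    rw [Complex.norm_exp]; exact Real.exp_le_exp.2 (by simpa using neg_le_abs w.im)
  have h3 := norm_add_le (Complex.exp (w * I)) (Complex.exp (-w * I))
  rw [Complex.cos, norm_div]
  simp only [Complex.norm_ofNat]
  linarith

/-- The kernel `(sin (z/12) / (z/12))^4`. -/
noncomputable def ker (z : ℂ) : ℂ := dslope Complex.sin 0 (z / 12) ^ 4

lemma ker_diff : Differentiable ℂ ker := by
  have := differentiable_dslope Complex.differentiable_sin 0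
  unfold ker
  fun_prop

lemma norm_ker_le (z : ℂ) : ‖ker z‖ ≤ Real.exp (4 + ‖z‖ / 3) := by
  have h := norm_dslope_zero_le Complex.differentiable_sin Complex.sin_zero (C := 1) (σ := 1)
    (fun w => by
      simpa using (norm_sin_le w).trans (Real.exp_le_exp.2 (Complex.abs_im_le_norm w))) (z / 12)
  rw [ker, norm_pow]
  refine (pow_le_pow_left₀ (norm_nonneg _) h 4).trans (le_of_eq ?_)
  rw [one_mul, ← Real.exp_nat_mul]
  congr 1
  simp only [norm_div, Complex.norm_ofNat]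
  push_cast; ring

lemma ker_of_ne {z : ℂ} (hz : z ≠ 0) : ker z = (Complex.sin (z / 12) / (z / 12)) ^ 4 := by
  rw [ker, dslope_of_ne _ (by simpa using hz), slope_def_field]; simp

lemma ker_neg (z : ℂ) : ker (-z) = ker z := by
  by_cases hz : z = 0
  · simp [hz]
  · rw [ker_of_ne hz, ker_of_ne (neg_ne_zero.2 hz), neg_div, Complex.sin_neg, neg_div_neg_eq]

lemma ker_real {u : ℝ} (hu : u ≠ 0) :
    ∃ k : ℝ, 0 ≤ k ∧ k ≤ 1 ∧ k * u ^ 4 ≤ 12 ^ 4 ∧ ker u = k := by
  refine ⟨(Real.sin (u / 12) / (u / 12)) ^ 4, by positivity, ?_, ?_, ?_⟩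
  · have h := Real.abs_sinc_le_one (u / 12)
    rw [Real.sinc_of_ne_zero (by simpa using hu)] at h
    have := pow_le_one₀ (n := 4) (abs_nonneg _) h
    rwa [Even.pow_abs (by decide)] at this
  · have h := pow_le_one₀ (n := 4) (abs_nonneg _) (Real.abs_sin_le_one (u / 12))
    rw [Even.pow_abs (by decide)] at h
    have : (Real.sin (u / 12) / (u / 12)) ^ 4 * u ^ 4 = 12 ^ 4 * Real.sin (u / 12) ^ 4 := by
      field_simp
    rw [this]; nlinarith
  · rw [ker_of_ne (by exact_mod_cast hu)]; push_cast; rfl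

/-- The value of the kernel at `i √s`. -/
noncomputable def kerI (s : ℝ) : ℝ := (Real.sinh (√s / 12) / (√s / 12)) ^ 4

lemma one_le_kerI {s : ℝ} (hs : 0 < s) : 1 ≤ kerI s := by
  have h0 : 0 < √s / 12 := by positivity
  exact one_le_pow₀ ((one_le_div h0).2 (Real.self_le_sinh_iff.2 h0.le))

lemma ker_I {s : ℝ} (hs : 0 < s) : ker ((√s : ℝ) * I) = kerI s := by
  have h0 : ((√s : ℝ) : ℂ) ≠ 0 := by exact_mod_cast (Real.sqrt_pos.2 hs).ne'
  rw [ker_of_ne (mul_ne_zero h0 I_ne_zero), kerI]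
  have : ((√s : ℝ) : ℂ) * I / 12 = ((√s : ℝ) : ℂ) / 12 * I := by ring
  rw [this, Complex.sin_mul_I]
  push_cast
  congr 1
  field_simp

/-- The entire function `(K z - K (i √s)) / (z^2 + s)`. -/
noncomputable def quo (s : ℝ) : ℂ → ℂ :=
  dslope (dslope ker ((√s : ℝ) * I)) (-((√s : ℝ) * I))

lemma quo_diff (s : ℝ) : Differentiable ℂ (quo s) :=
  differentiable_dslope (differentiable_dslope ker_diff _) _

lemma quo_eq {s : ℝ} (hs : 0 < s) {z : ℂ} (hz : z ^ 2 + s ≠ 0) :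
    quo s z = (ker z - kerI s) / (z ^ 2 + s) := by
  set w : ℂ := (√s : ℝ) * I with hw
  have hw2 : w ^ 2 = -s := by
    rw [hw, mul_pow, I_sq, ← Complex.ofReal_pow, Real.sq_sqrt hs.le]; ring
  have hfac : z ^ 2 + s = (z - w) * (z + w) := by linear_combination hw2
  have h1 : z - w ≠ 0 := fun h => hz (by rw [hfac, h, zero_mul])
  have h2 : z + w ≠ 0 := fun h => hz (by rw [hfac, h, mul_zero])
  have h0 : w ≠ 0 := by
    intro h; rw [h] at hw2
    have : (s : ℂ) = 0 := by linear_combination hw2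
    exact hs.ne' (by exact_mod_cast this)
  have h3 : -w ≠ w := fun h => h0 (by linear_combination (-1 / 2 : ℂ) * h)
  have hk : ker w = kerI s := ker_I hs
  rw [quo, ← hw, dslope_of_ne _ (fun h => h2 (by rw [h]; ring)), slope_def_field,
    dslope_of_ne _ (sub_ne_zero.1 h1), dslope_of_ne _ h3, slope_def_field, slope_def_field,
    ker_neg, hk, hfac]
  simp only [sub_self, zero_div, sub_zero, sub_neg_eq_add]
  field_simp

lemma norm_quo_le {s : ℝ} (hs : 0 < s) (z : ℂ) :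
    ‖quo s z‖ / kerI s ≤ (4 * ‖z‖ ^ 2 + 4) * Real.exp (5 + ‖z‖) / (1 + s) := by
  have hk := one_le_kerI hs
  have hz0 := norm_nonneg z
  have he : ∀ x : ℝ, 0 ≤ x → 1 ≤ Real.exp x := fun x hx => Real.one_le_exp hx
  have gen : ∀ (w : ℂ) (D : ℝ), 0 < D → D ≤ ‖w‖ ^ 2 - s ∨ D ≤ s - ‖w‖ ^ 2 →
      ‖quo s w‖ ≤ 2 * Real.exp (4 + ‖w‖ / 3) * kerI s / D := by
    intro w D hD hDw
    have h1 : D ≤ ‖w ^ 2 + s‖ := by
      have e1 : ‖w ^ 2‖ = ‖w‖ ^ 2 := norm_pow _ _
      have e2 : ‖(s : ℂ)‖ = s := by simp [hs.le]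
      have e3 := norm_sub_le (w ^ 2 + s) s
      have e4 := norm_sub_le (w ^ 2 + s) (w ^ 2)
      simp only [add_sub_cancel_right, add_sub_cancel_left] at e3 e4
      rcases hDw with h | h <;> linarith
    rw [quo_eq hs (norm_pos_iff.1 (by linarith)), norm_div]
    have h2 : ‖ker w - kerI s‖ ≤ 2 * Real.exp (4 + ‖w‖ / 3) * kerI s := by
      refine (norm_sub_le _ _).trans ?_
      have e1 := norm_ker_le w
      have e2 : ‖(kerI s : ℂ)‖ = kerI s := by simp; linarith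
      have e3 := he (4 + ‖w‖ / 3) (by positivity)
      rw [e2]; nlinarith
    gcongr
  rw [div_le_iff₀ (by linarith)]
  rcases le_or_gt (2 * ‖z‖ ^ 2 + 1) s with h | h
  · refine (gen z ((1 + s) / 2) (by positivity) (Or.inr (by linarith))).trans ?_
    have e1 : Real.exp (4 + ‖z‖ / 3) ≤ Real.exp (5 + ‖z‖) := Real.exp_le_exp.2 (by linarith)
    have e2 : 2 * Real.exp (4 + ‖z‖ / 3) * kerI s / ((1 + s) / 2) =
        4 * Real.exp (4 + ‖z‖ / 3) / (1 + s) * kerI s := by field_simp; ring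
    rw [e2]
    gcongr
    nlinarith
  · have hsq : √s ≤ 2 * ‖z‖ + 1 := Real.sqrt_le_iff.2 ⟨by positivity, by nlinarith⟩
    have hs2 : √s ^ 2 = s := Real.sq_sqrt hs.le
    have hs0 : 0 ≤ √s := Real.sqrt_nonneg s
    have h1 : ‖quo s z‖ ≤ 2 * Real.exp (5 + ‖z‖) * kerI s := by
      refine max_disc (quo_diff s) (ρ := ‖z‖ + √s + 1) (by positivity) (fun w hw => ?_)
        (by linarith)
      refine (gen w 1 one_pos (Or.inl (by rw [hw]; nlinarith))).trans ?_
      have e1 : Real.exp (4 + ‖w‖ / 3) ≤ Real.exp (5 + ‖z‖) :=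
        Real.exp_le_exp.2 (by rw [hw]; linarith)
      rw [div_one]
      gcongr
    refine h1.trans ?_
    gcongr
    rw [le_div_iff₀ (by positivity)]
    have := he (5 + ‖z‖) (by positivity)
    nlinarith

lemma sq_le_exp {η : ℝ} (hη : 0 < η) : ∃ C : ℝ, 0 ≤ C ∧ ∀ r : ℝ, 0 ≤ r →
    (1 + r) ^ 4 ≤ C * Real.exp (η * r) := by
  refine ⟨(1 + 4 / η) ^ 4, by positivity, fun r hr => ?_⟩
  have h1 : 1 + r ≤ (1 + 4 / η) * Real.exp (η * r / 4) := by
    have e1 := Real.add_one_le_exp (η * r / 4)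
    have e2 : (1 + 4 / η) * (η * r / 4 + 1) = 1 + r + (η * r / 4 + 4 / η) := by
      field_simp; ring
    have e3 : 0 ≤ η * r / 4 + 4 / η := by positivity
    calc 1 + r ≤ (1 + 4 / η) * (η * r / 4 + 1) := by linarith
      _ ≤ _ := by gcongr
  calc (1 + r) ^ 4 ≤ ((1 + 4 / η) * Real.exp (η * r / 4)) ^ 4 := by gcongr
    _ = _ := by rw [mul_pow, ← Real.exp_nat_mul]; congr 2; push_cast; ring

/-- The basic comparison function. -/
lemma exists_base {m : ℝ} (h0 : 0 < m) (h2 : m < 2) : ∃ G : ℂ → ℂ, Differentiable ℂ G ∧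
    (∀ η : ℝ, 0 < η → ∃ C : ℝ, ∀ z : ℂ, ‖G z‖ ≤ C * Real.exp ((1 + η) * ‖z‖)) ∧
    (∀ z, G (-z) = G z) ∧ ∀ u : ℝ, ∃ e : ℝ, 0 ≤ e ∧ e ≤ 1 ∧ e * u ^ 4 ≤ 12 ^ 4 ∧
      G u = ((|u| ^ m * (1 - e) : ℝ) : ℂ) := by
  have hp : m / 2 ∈ Ioo (0 : ℝ) 1 := ⟨by linarith, by linarith⟩
  set p := m / 2 with hpdef
  set c := ∫ t in Ioi 0, Real.rpowIntegrand₀₁ p t 1 with hc
  have hc0 : 0 < c := Real.integral_rpowIntegrand₀₁_one_pos hp
  set μ : Measure ℝ := volume.restrict (Ioi 0) with hμ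
  set F : ℂ → ℝ → ℂ := fun z s =>
    -(z ^ 2 * quo s z) * ((s ^ (p - 1) / kerI s : ℝ) : ℂ) with hF
  have hpos : ∀ᵐ s ∂μ, 0 < s := ae_restrict_mem measurableSet_Ioi
  have hgen : ∀ z : ℂ, ∀ᵐ s ∂μ, F z s =
      -(z ^ 2 * ((ker z - kerI s) / (z ^ 2 + s))) * ((s ^ (p - 1) / kerI s : ℝ) : ℂ) := by
    intro z
    have h1 : ∀ᵐ s ∂μ, s ≠ (-z ^ 2).re := ae_restrict_of_ae (by simp [ae_iff])
    filter_upwards [hpos, h1] with s hs hs1
    have : z ^ 2 + s ≠ 0 := fun h => hs1 (by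
      have : -z ^ 2 = s := by linear_combination -h
      rw [this]; simp)
    simp only [hF, quo_eq hs this]
  have hm : ∀ z, AEStronglyMeasurable (F z) μ := by
    intro z
    refine AEStronglyMeasurable.congr (Measurable.aestronglyMeasurable ?_)
      (EventuallyEq.symm (hgen z))
    unfold kerI
    fun_prop
  set B : ℝ → ℝ := fun r => max r 0 ^ 2 * ((4 * max r 0 ^ 2 + 4) * Real.exp (5 + r)) with hB
  have hBm : Monotone B := fun r r' h => by
    simp only [hB]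
    gcongr
  have hb : Integrable (fun s => Real.rpowIntegrand₀₁ p s 1) μ :=
    Real.integrableOn_rpowIntegrand₀₁_Ioi hp zero_le_one
  have hbound : ∀ᵐ s ∂μ, 0 ≤ Real.rpowIntegrand₀₁ p s 1 ∧
      ∀ z, ‖F z s‖ ≤ B ‖z‖ * Real.rpowIntegrand₀₁ p s 1 := by
    filter_upwards [hpos] with s hs
    refine ⟨Real.rpowIntegrand₀₁_nonneg hp.1 hs.le zero_le_one, fun z => ?_⟩
    have hk := one_le_kerI hs
    have h1 := norm_quo_le hs z
    rw [Real.rpowIntegrand₀₁_eq_pow_div hp hs.le zero_le_one]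
    simp only [hF, hB, norm_mul, norm_neg, norm_pow, Complex.norm_real, max_eq_left (norm_nonneg z)]
    rw [Real.norm_of_nonneg (by positivity)]
    calc ‖z‖ ^ 2 * ‖quo s z‖ * (s ^ (p - 1) / kerI s)
        = ‖z‖ ^ 2 * (‖quo s z‖ / kerI s) * s ^ (p - 1) := by ring
      _ ≤ ‖z‖ ^ 2 * ((4 * ‖z‖ ^ 2 + 4) * Real.exp (5 + ‖z‖) / (1 + s)) * s ^ (p - 1) := by
          gcongr
      _ = _ := by rw [add_comm s 1]; ring
  have hdiff := differentiable_integral hm (Eventually.of_forall fun s => by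
    have := quo_diff s
    simp only [hF]
    fun_prop) hBm hb hbound
  refine ⟨fun z => (c⁻¹ : ℝ) * ∫ s, F z s ∂μ, hdiff.const_mul _, ?_, ?_, ?_⟩
  · intro η hη
    obtain ⟨C, hC0, hC⟩ := sq_le_exp hη
    refine ⟨4 * Real.exp 5 * C, fun z => ?_⟩
    have h1 : ‖∫ s, F z s ∂μ‖ ≤ B ‖z‖ * c := by
      rw [hc, ← integral_const_mul]
      exact norm_integral_le_of_norm_le (hb.const_mul _) (hbound.mono fun s hs => hs.2 z)
    have hz0 := norm_nonneg z
    rw [norm_mul, Complex.norm_real, Real.norm_of_nonneg (by positivity)]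
    calc c⁻¹ * ‖∫ s, F z s ∂μ‖ ≤ c⁻¹ * (B ‖z‖ * c) := by gcongr
      _ = ‖z‖ ^ 2 * (‖z‖ ^ 2 + 1) * (4 * Real.exp (5 + ‖z‖)) := by
          simp only [hB, max_eq_left hz0]; field_simp
      _ ≤ (1 + ‖z‖) ^ 4 * (4 * Real.exp (5 + ‖z‖)) := by
          gcongr; nlinarith [pow_nonneg hz0 3]
      _ ≤ C * Real.exp (η * ‖z‖) * (4 * Real.exp (5 + ‖z‖)) := by gcongr; exact hC _ hz0
      _ = _ := by rw [add_mul, one_mul, Real.exp_add, Real.exp_add]; ring
  · intro z
    refine congrArg (fun t => ((c⁻¹ : ℝ) : ℂ) * t) (integral_congr_ae ?_)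
    filter_upwards [hgen z, hgen (-z)] with s h1 h2
    rw [h1, h2, ker_neg, neg_sq]
  · intro u
    by_cases hu : u = 0
    · refine ⟨0, le_rfl, zero_le_one, by norm_num, ?_⟩
      simp [hu, hF, Real.zero_rpow h0.ne']
    obtain ⟨k, hk0, hk1, hk4, hk⟩ := ker_real hu
    have hu2 : 0 < u ^ 2 := by positivity
    have hi1 : Integrable (fun s => Real.rpowIntegrand₀₁ p s (u ^ 2)) μ :=
      Real.integrableOn_rpowIntegrand₀₁_Ioi hp hu2.le
    have hnn : ∀ᵐ s ∂μ, 0 ≤ Real.rpowIntegrand₀₁ p s (u ^ 2) / kerI s ∧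
        Real.rpowIntegrand₀₁ p s (u ^ 2) / kerI s ≤ Real.rpowIntegrand₀₁ p s (u ^ 2) := by
      filter_upwards [hpos] with s hs
      have e1 := Real.rpowIntegrand₀₁_nonneg hp.1 hs.le hu2.le
      have e2 := one_le_kerI hs
      exact ⟨by positivity, div_le_self e1 e2⟩
    have hi2 : Integrable (fun s => Real.rpowIntegrand₀₁ p s (u ^ 2) / kerI s) μ := by
      refine hi1.mono' ?_ (hnn.mono fun s hs => by rw [Real.norm_of_nonneg hs.1]; exact hs.2)
      refine Measurable.aestronglyMeasurable ?_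
      unfold kerI Real.rpowIntegrand₀₁
      fun_prop
    set J := ∫ s, Real.rpowIntegrand₀₁ p s (u ^ 2) / kerI s ∂μ with hJ
    have hum : (u ^ 2) ^ p = |u| ^ m := by
      rw [← sq_abs, ← Real.rpow_natCast, ← Real.rpow_mul (abs_nonneg u)]
      congr 1; rw [hpdef]; push_cast; ring
    have hI : ∫ s, Real.rpowIntegrand₀₁ p s (u ^ 2) ∂μ = |u| ^ m * c := by
      rw [← hum]; exact Real.integral_rpowIntegrand₀₁_eq_rpow_mul_const hp hu2.le
    have hJ0 : 0 ≤ J := integral_nonneg_of_ae (hnn.mono fun s hs => hs.1)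
    have hJ1 : J ≤ |u| ^ m * c := hI ▸ integral_mono_ae hi2 hi1 (hnn.mono fun s hs => hs.2)
    have hA : 0 < |u| ^ m * c := by positivity
    have hr : J / (|u| ^ m * c) ≤ 1 := (div_le_one hA).2 hJ1
    have hr0 : 0 ≤ J / (|u| ^ m * c) := by positivity
    have hu4 : 0 ≤ k * u ^ 4 := by positivity
    refine ⟨k * (J / (|u| ^ m * c)), by positivity, by nlinarith, by nlinarith, ?_⟩
    have hFu : ∫ s, F u s ∂μ = ((|u| ^ m * c - k * J : ℝ) : ℂ) := by
      rw [← hI, hJ, ← integral_const_mul, ← integral_sub hi1 (hi2.const_mul k),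
        ← integral_complex_ofReal]
      refine integral_congr_ae ?_
      filter_upwards [hgen u, hpos] with s h1 hs
      have e2 := one_le_kerI hs
      rw [h1, hk, Real.rpowIntegrand₀₁_eq_pow_div hp hs.le hu2.le]
      have e3 : (-(u ^ 2 * ((k - kerI s) / (u ^ 2 + s))) * (s ^ (p - 1) / kerI s) : ℝ) =
          s ^ (p - 1) * u ^ 2 / (s + u ^ 2) - k * (s ^ (p - 1) * u ^ 2 / (s + u ^ 2) / kerI s) := by
        field_simp; ring
      rw [← e3]
      simp only [Complex.ofReal_mul, Complex.ofReal_neg, Complex.ofReal_div, Complex.ofReal_pow,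
        Complex.ofReal_sub, Complex.ofReal_add]
    simp only [hFu]
    rw [← Complex.ofReal_mul]
    congr 1
    field_simp

end Pool.Agent.P.MP_7e6317_an
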