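import Pool.Agent.P.MP_7e6317_an.Theta2

/-!
The limit theorems for the three functions.
-/

namespace Pool.Agent.P.MP_7e6317_an

open Set Filter Topology Complex

variable {l : ℝ}

lemma lineF_phi (h0 : 0 < l) (h1 : l ≤ 1) : LineF l 1 (phi l) where
  l0 := h0
  l1 := h1
  cont := continuous_abs.rpow_const fun _ => Or.inr h0.le
  pos x hx := by rw [phi, abs_of_nonneg hx]
  sym x := by simp [phi]
  sig := abs_one

lemma psi_eq (h0 : 0 < l) (x : ℝ) : psi l x = max x 0 ^ l - max (-x) 0 ^ l := by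
  rcases lt_trichotomy x 0 with h | rfl | h
  · rw [psi, Real.sign_of_neg h, max_eq_right h.le, max_eq_left (by linarith), abs_of_neg h,
      Real.zero_rpow h0.ne']
    ring
  · simp [psi]
  · rw [psi, Real.sign_of_pos h, max_eq_left h.le, max_eq_right (by linarith), abs_of_pos h,
      Real.zero_rpow h0.ne']
    ring

lemma lineF_psi (h0 : 0 < l) (h1 : l ≤ 1) : LineF l (-1) (psi l) where
  l0 := h0
  l1 := h1
  cont := by
    rw [funext (psi_eq h0)]
    exact ((continuous_id.max continuous_const).rpow_const fun _ => Or.inr h0.le).sub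
      ((continuous_neg.max continuous_const).rpow_const fun _ => Or.inr h0.le)
  pos x hx := by
    rw [psi_eq h0, max_eq_left hx, max_eq_right (by linarith), Real.zero_rpow h0.ne', sub_zero]
  sym x := by simp [psi, Real.sign_neg]
  sig := by simp

lemma mul_psi (h0 : 0 < l) (u : ℝ) : u * psi l u = |u| ^ (l + 1) := by
  rw [Real.rpow_add' (abs_nonneg u) (by linarith), Real.rpow_one, psi, mul_left_comm]
  congr 1
  rcases lt_trichotomy u 0 with h | rfl | h
  · rw [Real.sign_of_neg h, abs_of_neg h]; ring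
  · simp
  · rw [Real.sign_of_pos h, abs_of_pos h]; ring

lemma base_psi (h0 : 0 < l) (h1 : l < 1) : ∃ G : ℂ → ℂ, TypeOne G ∧
    ∀ u : ℝ, ∃ e : ℝ, 0 ≤ e ∧ e ≤ 1 ∧ e * u ^ 4 ≤ 12 ^ 4 ∧ (G u).re = psi l u * (1 - e) := by
  obtain ⟨G, g1, g2, g3, g4⟩ := exists_base (m := l + 1) (by linarith) (by linarith)
  have hG0 : G 0 = 0 := by
    obtain ⟨e, -, -, -, h⟩ := g4 0
    simpa [Real.zero_rpow (by linarith : l + 1 ≠ 0)] using h
  have hd0 : deriv G 0 = 0 := by
    have e1 := deriv_comp_neg G 0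
    rw [funext g3, neg_zero] at e1
    linear_combination (1 / 2 : ℂ) * e1
  have key : ∀ u : ℝ, ∃ e : ℝ, 0 ≤ e ∧ e ≤ 1 ∧ e * u ^ 4 ≤ 12 ^ 4 ∧
      dslope G 0 u = ((psi l u * (1 - e) : ℝ) : ℂ) := by
    intro u
    obtain ⟨e, e0, e1, e2, h⟩ := g4 u
    refine ⟨e, e0, e1, e2, ?_⟩
    by_cases hu : u = 0
    · simp [hu, hd0, psi]
    · have hu' : (u : ℂ) ≠ 0 := by exact_mod_cast hu
      rw [dslope_of_ne _ hu', slope_def_field, hG0, h, ← mul_psi h0]
      push_cast; field_simp; ring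
  refine ⟨dslope G 0, ⟨differentiable_dslope g1 0, fun x => ?_, fun η hη => ?_⟩, fun u => ?_⟩
  · obtain ⟨e, -, -, -, h⟩ := key x
    rw [h, Complex.ofReal_im]
  · obtain ⟨C, hC⟩ := g2 η hη
    refine ⟨C * Real.exp (1 + η), fun z => (norm_dslope_zero_le g1 hG0 hC z).trans (le_of_eq ?_)⟩
    rw [mul_add, mul_one, Real.exp_add]; ring
  · obtain ⟨e, e0, e1, e2, h⟩ := key u
    exact ⟨e, e0, e1, e2, by rw [h, Complex.ofReal_re]⟩

lemma tendsto_rpow_div_zero (h1 : l < 1) :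
    Tendsto (fun n : ℕ => (n : ℝ) ^ l / n) atTop (𝓝 0) := by
  have t1 : Tendsto (fun n : ℕ => (n : ℝ) ^ (-(1 - l))) atTop (𝓝 0) :=
    (tendsto_rpow_neg_atTop (by linarith)).comp tendsto_natCast_atTop_atTop
  refine t1.congr' ((eventually_ge_atTop 1).mono fun n hn => ?_)
  have : (0 : ℝ) < n := by exact_mod_cast hn
  simp only [neg_sub]
  rw [Real.rpow_sub_one this.ne']

lemma no_phi (h0 : 0 < l) (h1 : l ≤ 1) (G : ℂ → ℂ) (hG : TypeOne G) :
    ¬ ∀ u : ℝ, (G u).re = phi l u := fun h => not_entire_rpow hG.1 h0 (by linarith) h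

lemma no_psi (h0 : 0 < l) (h1 : l < 1) (G : ℂ → ℂ) (hG : TypeOne G) :
    ¬ ∀ u : ℝ, (G u).re = psi l u := fun h =>
  not_entire_rpow (G := fun z => z * G z) (differentiable_id.mul hG.1) (m := l + 1)
    (by linarith) (by linarith) fun u => by rw [Complex.re_ofReal_mul, h, mul_psi h0]

lemma phi_limit (h0 : 0 < l) (h1 : l < 1) {α : ℝ} (hα : 0 < α) :
    ∃ c, 0 < c ∧ IsLeast {a | ∃ G, TypeOne G ∧ Near (phi l) G a 0} c ∧
      Tendsto (fun n : ℕ => α * n * bestE n α (phi l)) atTop (𝓝 c) := by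
  obtain ⟨G₀, g1, -, g3⟩ := base_typeOne (m := l) h0 (by linarith)
  simpa only [zero_mul, zero_div] using line_limit (lineF_phi h0 h1.le) hα le_rfl
    (tendsto_rpow_div_zero h1) (fun n hn => by positivity) g1 g3 (no_phi h0 h1.le)

lemma psi_limit (h0 : 0 < l) (h1 : l < 1) {α : ℝ} (hα : 0 < α) :
    ∃ c, 0 < c ∧ IsLeast {a | ∃ G, TypeOne G ∧ Near (psi l) G a 0} c ∧
      Tendsto (fun n : ℕ => α * n * bestE n α (psi l)) atTop (𝓝 c) := by
  obtain ⟨G₀, g1, g3⟩ := base_psi h0 h1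
  simpa only [zero_mul, zero_div] using line_limit (lineF_psi h0 h1.le) hα le_rfl
    (tendsto_rpow_div_zero h1) (fun n hn => by positivity) g1 g3 (no_psi h0 h1)

lemma abs_limit {α : ℝ} (hα : 0 < α) :
    ∃ c, 0 < c ∧ IsLeast {a | ∃ G, TypeOne G ∧ Near (phi 1) G a (a / α)} c ∧
      Tendsto (fun n : ℕ => α * n * bestE n α (phi 1)) atTop (𝓝 c) := by
  obtain ⟨G₀, g1, -, g3⟩ := base_typeOne (m := 1) one_pos (by linarith)
  have ht : Tendsto (fun n : ℕ => (n : ℝ) ^ (1 : ℝ) / n) atTop (𝓝 1) := by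
    refine tendsto_const_nhds.congr' ((eventually_ge_atTop 1).mono fun n hn => ?_)
    have : (0 : ℝ) < n := by exact_mod_cast hn
    simp only [Real.rpow_one]
    field_simp
  simpa only [one_mul] using line_limit (lineF_phi one_pos le_rfl) hα zero_le_one ht
    (fun n hn => by rw [Real.rpow_one, div_self (by linarith)]) g1 g3 (no_phi one_pos le_rfl)

lemma abs_compare {α c : ℝ} (hα : 0 < α)
    (h : IsLeast {a | ∃ G, TypeOne G ∧ Near (phi 1) G a (a / α)} c) :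
    (∀ b : ℝ, (∃ G, TypeOne G ∧ ∀ x : ℝ, |(G x).re - (|x|)| ≤ b) → c / α ≤ b) ∧
      ∃ G, TypeOne G ∧ ∀ x : ℝ, |(G x).re - (|x|)| ≤ (1 + α) * (c / α) := by
  constructor
  · rintro b ⟨G, h1, h2⟩
    have hb : 0 ≤ b := (abs_nonneg _).trans (h2 0)
    have e : α * b / α = b := by field_simp
    rw [div_le_iff₀' hα]
    refine h.2 ⟨G, h1, fun x => ⟨x, ?_, ?_⟩, fun x => ⟨x, ?_, ?_⟩⟩
    · rw [sub_self, abs_zero]; positivity
    · rw [e, phi, Real.rpow_one, abs_sub_comm]; exact h2 x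
    · rw [sub_self, abs_zero]; positivity
    · rw [e, phi, Real.rpow_one]; exact h2 x
  · obtain ⟨G, h1, h2⟩ := h.1
    refine ⟨G, h1, fun x => ?_⟩
    obtain ⟨y, r1, r2⟩ := h2.2 x
    rw [phi, Real.rpow_one] at r2
    have e : (1 + α) * (c / α) = c / α + c := by field_simp
    have e1 := abs_abs_sub_abs_le_abs_sub x y
    rw [e]
    rw [abs_le] at r2 ⊢
    have e2 := abs_le.1 (e1.trans r1)
    constructor <;> linarith

lemma ratio {x w : ℕ → ℝ} {c : ℝ} (hc : 0 < c)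
    (h : Tendsto (fun n => w n * x n) atTop (𝓝 c)) :
    Tendsto (fun n => x n / (c / w n)) atTop (𝓝 1) := by
  have := h.div_const c
  rw [div_self hc.ne'] at this
  refine this.congr fun n => ?_
  rw [div_div_eq_mul_div, mul_comm]

lemma uniform_const {S : Set ℝ} {x : ℝ → ℕ → ℝ} {w : ℝ → ℕ → ℝ}
    (h : ∀ α : ℝ, 0 < α → ∃ c, 0 < c ∧ IsLeast S c ∧
      Tendsto (fun n => w α n * x α n) atTop (𝓝 c)) :
    ∃ c, 0 < c ∧ IsLeast S c ∧ ∀ α : ℝ, 0 < α →
      Tendsto (fun n => x α n / (c / w α n)) atTop (𝓝 1) := by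
  obtain ⟨c, h1, h2, -⟩ := h 1 one_pos
  refine ⟨c, h1, h2, fun α hα => ?_⟩
  obtain ⟨c', -, h3, h4⟩ := h α hα
  exact ratio h1 (h2.unique h3 ▸ h4)

end Pool.Agent.P.MP_7e6317_an
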