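import Mathlib

/-!
Definitions for best Hausdorff approximation by polynomials on `[-1, 1]` and for the limiting
extremal problems for entire functions of exponential type.
-/

namespace Pool.Agent.P.MP_7e6317_an

open Set

/-- The one-sided deviation `h(Δ, α; f, g)` on `Δ = [-1, 1]`. -/
noncomputable def hdev (α : ℝ) (f g : ℝ → ℝ) : ℝ :=
  ⨆ x : Icc (-1 : ℝ) 1, ⨅ y : Icc (-1 : ℝ) 1, max (|x.1 - y.1| / α) |f x.1 - g y.1|

/-- The Hausdorff distance `r(Δ, α; f, g)` with parameter `α` on `Δ = [-1, 1]`. -/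
noncomputable def hdist (α : ℝ) (f g : ℝ → ℝ) : ℝ := max (hdev α f g) (hdev α g f)

/-- The best Hausdorff approximation `E(H_n, [-1, 1], α; f)` by real polynomials of degree at
most `n`. -/
noncomputable def bestE (n : ℕ) (α : ℝ) (f : ℝ → ℝ) : ℝ :=
  ⨅ P : {P : Polynomial ℝ // P.natDegree ≤ n}, hdist α f fun x => P.1.eval x

/-- `φ(λ; x) = |x|^λ`. -/
noncomputable def phi (l x : ℝ) : ℝ := |x| ^ l

/-- `ψ(λ; x) = |x|^λ sgn x`. -/
noncomputable def psi (l x : ℝ) : ℝ := |x| ^ l * Real.sign x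

/-- `θ(λ; x) = (1 - x^2)^λ`. -/
noncomputable def theta (l x : ℝ) : ℝ := (1 - x ^ 2) ^ l

/-- Entire functions of exponential type at most one that are real on the real axis. -/
def TypeOne (G : ℂ → ℂ) : Prop :=
  Differentiable ℂ G ∧ (∀ x : ℝ, (G x).im = 0) ∧
    ∀ η : ℝ, 0 < η → ∃ C : ℝ, ∀ z : ℂ, ‖G z‖ ≤ C * Real.exp ((1 + η) * ‖z‖)

/-- Every point of each of the graphs of `f` and `G` over the whole real line has a point of the
other graph at horizontal distance at most `a` and vertical distance at most `b`. -/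
def Near (f : ℝ → ℝ) (G : ℂ → ℂ) (a b : ℝ) : Prop :=
  (∀ x : ℝ, ∃ y : ℝ, |x - y| ≤ a ∧ |f x - (G y).re| ≤ b) ∧
    ∀ x : ℝ, ∃ y : ℝ, |x - y| ≤ a ∧ |(G x).re - f y| ≤ b

/-- The graphs of `|w|^(2 l)` and `H` are at horizontal distance at most `a` when the horizontal
distance is measured in the variable `u^2 / 2`. -/
def NearSq (l : ℝ) (H : ℂ → ℂ) (a : ℝ) : Prop :=
  (∀ w : ℝ, ∃ u : ℝ, |w ^ 2 / 2 - u ^ 2 / 2| ≤ a ∧ (H u).re = |w| ^ (2 * l)) ∧
    ∀ u : ℝ, ∃ w : ℝ, |u ^ 2 / 2 - w ^ 2 / 2| ≤ a ∧ (H u).re = |w| ^ (2 * l)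

end Pool.Agent.P.MP_7e6317_an
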