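import Pool.Agent.P.MP_7e6317_an.Defs

/-!
Tools on entire functions: Phragmen-Lindelof bound, Montel compactness along an ultrafilter,
holomorphy of parametric integrals, difference quotients.
-/

namespace Pool.Agent.P.MP_7e6317_an

open Set Filter Topology Complex MeasureTheory Metric

lemma pl_upper {F : ℂ → ℂ} (hd : Differentiable ℂ F) {σ C M : ℝ} (hσ : 0 ≤ σ)
    (hC : ∀ z, ‖F z‖ ≤ C * Real.exp (σ * ‖z‖)) (hM : ∀ u : ℝ, ‖F u‖ ≤ M * (1 + u ^ 2))
    {z : ℂ} (hz : 0 ≤ z.im) : ‖F z‖ ≤ M * (1 + ‖z‖) ^ 2 * Real.exp (σ * z.im) := by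
  have hC0 : 0 ≤ C := by
    have := (norm_nonneg _).trans (hC 0)
    simpa using this
  set f : ℂ → ℂ := fun w => F (I * w) * Complex.exp (-(σ * w)) / (1 + w) ^ 2 with hf
  have h1 : ∀ w : ℂ, 0 ≤ w.re → 1 ≤ ‖1 + w‖ := fun w hw =>
    le_trans (by simp [hw]) (Complex.re_le_norm (1 + w))
  have hne : ∀ w : ℂ, 0 ≤ w.re → (1 + w) ^ 2 ≠ 0 := fun w hw =>
    pow_ne_zero _ (norm_pos_iff.1 (lt_of_lt_of_le one_pos (h1 w hw)))
  have hnorm : ∀ w : ℂ, ‖f w‖ = ‖F (I * w)‖ * Real.exp (-(σ * w.re)) / ‖1 + w‖ ^ 2 := by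
    intro w
    simp [hf, Complex.norm_exp]
  have hdiff : DifferentiableOn ℂ f {w | 0 ≤ w.re} := by
    intro w hw
    have e1 : DifferentiableAt ℂ (fun w => F (I * w)) w := (hd _).comp w (by fun_prop)
    have e2 : DifferentiableAt ℂ (fun w => F (I * w) * Complex.exp (-(σ * w))) w := by fun_prop
    have e3 : DifferentiableAt ℂ (fun w : ℂ => (1 + w) ^ 2) w := by fun_prop
    exact (e2.div e3 (hne w hw)).differentiableWithinAt
  have hbd : ∀ w : ℂ, 0 ≤ w.re → ‖f w‖ ≤ C * Real.exp (σ * ‖w‖) * Real.exp (-(σ * w.re)) := by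
    intro w hw
    rw [hnorm]
    have h2 := hC (I * w)
    rw [norm_mul, Complex.norm_I, one_mul] at h2
    refine (div_le_self (by positivity) (one_le_pow₀ (h1 w hw))).trans ?_
    gcongr
  have key := PhragmenLindelof.right_half_plane_of_bounded_on_real (f := f) (C := M)
    (z := -I * z) (DifferentiableOn.diffContOnCl (by
      rw [Complex.closure_setOfPred_lt_re]; exact hdiff)) ?_ ?_ ?_ (by simpa using hz)
  · rw [hnorm] at key
    have h3 : I * (-I * z) = z := by rw [← mul_assoc]; simp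
    have h4 : (-I * z).re = z.im := by simp
    rw [h3, h4, div_le_iff₀ (pow_pos (lt_of_lt_of_le one_pos (h1 _ (by simpa using hz))) 2)] at key
    have hM0 : 0 ≤ M := by
      have := (norm_nonneg _).trans (hM 0)
      simpa using this
    have h5 : ‖1 + -I * z‖ ≤ 1 + ‖z‖ := (norm_add_le _ _).trans (by simp)
    calc ‖F z‖ = ‖F z‖ * Real.exp (-(σ * z.im)) * Real.exp (σ * z.im) := by
          rw [mul_assoc, ← Real.exp_add]; simp
      _ ≤ M * ‖1 + -I * z‖ ^ 2 * Real.exp (σ * z.im) := by gcongr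
      _ ≤ _ := by gcongr
  · refine ⟨1, by norm_num, σ, Asymptotics.IsBigO.of_bound C ?_⟩
    refine eventually_inf_principal.2 (Eventually.of_forall fun w hw => ?_)
    have hw' : 0 ≤ w.re := le_of_lt hw
    refine (hbd w hw').trans ?_
    rw [Real.rpow_one, Real.norm_of_nonneg (Real.exp_pos _).le]
    have : Real.exp (-(σ * w.re)) ≤ 1 := Real.exp_le_one_iff.2 (by
      have := mul_nonneg hσ hw'; linarith)
    exact mul_le_of_le_one_right (by positivity) this
  · refine ⟨C, eventually_map.2 ((eventually_ge_atTop 0).mono fun x hx => ?_)⟩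
    refine (hbd x (by simpa using hx)).trans (le_of_eq ?_)
    rw [mul_assoc, ← Real.exp_add]
    simp [abs_of_nonneg hx]
  · intro x
    rw [hnorm]
    have h3 : I * (x * I) = ((-x : ℝ) : ℂ) := by
      push_cast; rw [mul_comm, mul_assoc, I_mul_I]; ring
    have h4 : ‖1 + x * I‖ ^ 2 = 1 + x ^ 2 := by
      rw [Complex.sq_norm, Complex.normSq_apply]; simp; ring
    rw [h3, h4, div_le_iff₀ (by positivity)]
    simpa using hM (-x)

/-- Phragmen-Lindelof: growth in the imaginary direction only. -/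
lemma pl_bound {F : ℂ → ℂ} (hd : Differentiable ℂ F) {σ C M : ℝ} (hσ : 0 ≤ σ)
    (hC : ∀ z, ‖F z‖ ≤ C * Real.exp (σ * ‖z‖)) (hM : ∀ u : ℝ, ‖F u‖ ≤ M * (1 + u ^ 2))
    (z : ℂ) : ‖F z‖ ≤ M * (1 + ‖z‖) ^ 2 * Real.exp (σ * |z.im|) := by
  rcases le_total 0 z.im with hz | hz
  · rw [abs_of_nonneg hz]; exact pl_upper hd hσ hC hM hz
  · have := pl_upper (F := fun w => F (-w)) (hd.comp differentiable_neg) hσ (C := C) (M := M)
      (fun w => by simpa using hC (-w)) (fun u => by simpa using hM (-u)) (z := -z)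
      (by simpa using hz)
    rw [abs_of_nonpos hz]
    simpa using this

lemma lipschitz_of_bound {F : ℂ → ℂ} (hd : Differentiable ℂ F) {B : ℝ → ℝ} (hB : Monotone B)
    (hF : ∀ z, ‖F z‖ ≤ B ‖z‖) {R : ℝ} {z w : ℂ} (hz : ‖z‖ ≤ R) (hw : ‖w‖ ≤ R) :
    ‖F z - F w‖ ≤ B (R + 1) * ‖z - w‖ := by
  refine (convex_closedBall (0 : ℂ) R).norm_image_sub_le_of_norm_deriv_le
    (fun x _ => hd x) (fun x hx => ?_) (by simpa using hw) (by simpa using hz)
  have := Complex.norm_deriv_le_of_forall_mem_sphere_norm_le (c := x) (C := B (R + 1)) one_pos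
    hd.diffContOnCl fun y hy => (hF y).trans (hB (by
      have h1 : ‖x‖ ≤ R := by simpa using hx
      have h2 : ‖y - x‖ = 1 := by simpa [dist_eq_norm] using hy
      calc ‖y‖ = ‖(y - x) + x‖ := by ring_nf
        _ ≤ ‖y - x‖ + ‖x‖ := norm_add_le _ _
        _ ≤ R + 1 := by linarith))
  simpa using this

/-- Montel compactness along an ultrafilter. -/
lemma montel (U : Ultrafilter ℕ) {F : ℕ → ℂ → ℂ} (hd : ∀ n, Differentiable ℂ (F n))
    {B : ℝ → ℝ} (hB : Monotone B) (hF : ∀ᶠ n in (U : Filter ℕ), ∀ z, ‖F n z‖ ≤ B ‖z‖) :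
    ∃ G : ℂ → ℂ, Differentiable ℂ G ∧ TendstoLocallyUniformly F G U := by
  have hex : ∀ z, ∃ c, Tendsto (fun n => F n z) U (𝓝 c) := by
    intro z
    obtain ⟨c, -, hc⟩ := (isCompact_closedBall (0 : ℂ) (B ‖z‖)).ultrafilter_le_nhds'
      (U.map fun n => F n z) (Ultrafilter.mem_map.2 (hF.mono fun n hn => by simpa using hn z))
    exact ⟨c, hc⟩
  choose G hG using hex
  have hloc : TendstoLocallyUniformly F G U := by
    rw [Metric.tendstoLocallyUniformly_iff]
    intro ε hε x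
    set L := |B (‖x‖ + 1 + 1)| + 1 with hL
    have hL0 : 0 < L := by positivity
    set r := min 1 (ε / 3 / L) with hr
    have hr0 : 0 < r := lt_min one_pos (by positivity)
    have hlip : ∀ᶠ n in (U : Filter ℕ), ∀ y ∈ ball x r, ‖F n y - F n x‖ ≤ ε / 3 := by
      refine hF.mono fun n hn y hy => ?_
      have hy' : ‖y - x‖ < r := by simpa [dist_eq_norm] using hy
      have h1 : ‖y‖ ≤ ‖x‖ + 1 := by
        calc ‖y‖ = ‖(y - x) + x‖ := by ring_nf
          _ ≤ ‖y - x‖ + ‖x‖ := norm_add_le _ _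
          _ ≤ _ := by linarith [min_le_left 1 (ε / 3 / L)]
      refine (lipschitz_of_bound (hd n) hB hn h1 (by linarith)).trans ?_
      calc B (‖x‖ + 1 + 1) * ‖y - x‖ ≤ L * (ε / 3 / L) := by
            refine mul_le_mul (by linarith [le_abs_self (B (‖x‖ + 1 + 1))])
              (hy'.le.trans (min_le_right _ _)) (norm_nonneg _) hL0.le
        _ = ε / 3 := by field_simp
    have hGl : ∀ y ∈ ball x r, ‖G y - G x‖ ≤ ε / 3 := fun y hy =>
      le_of_tendsto ((hG y).sub (hG x)).norm (hlip.mono fun n hn => hn y hy)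
    refine ⟨ball x r, ball_mem_nhds x hr0, ?_⟩
    filter_upwards [hlip, Metric.tendsto_nhds.1 (hG x) (ε / 3) (by positivity)] with n h1 h2 y hy
    rw [dist_eq_norm] at h2 ⊢
    calc ‖G y - F n y‖ = ‖(G y - G x) - (F n x - G x) - (F n y - F n x)‖ := by ring_nf
      _ ≤ ‖G y - G x‖ + ‖F n x - G x‖ + ‖F n y - F n x‖ :=
          (norm_sub_le _ _).trans (by gcongr; exact norm_sub_le _ _)
      _ < ε := by linarith [hGl y hy, h1 y hy]
  refine ⟨G, ?_, hloc⟩
  rw [← differentiableOn_univ]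
  exact (tendstoLocallyUniformlyOn_univ.2 hloc).differentiableOn
    (Eventually.of_forall fun n => (hd n).differentiableOn) isOpen_univ

/-- Parametric integrals of entire functions are entire. -/
lemma differentiable_integral {μ : Measure ℝ} {F : ℂ → ℝ → ℂ}
    (hm : ∀ z, AEStronglyMeasurable (F z) μ)
    (hd : ∀ᵐ s ∂μ, Differentiable ℂ fun z => F z s) {B : ℝ → ℝ} (hB : Monotone B)
    {b : ℝ → ℝ} (hb : Integrable b μ) (hF : ∀ᵐ s ∂μ, 0 ≤ b s ∧ ∀ z, ‖F z s‖ ≤ B ‖z‖ * b s) :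
    Differentiable ℂ fun z => ∫ s, F z s ∂μ := by
  intro z₀
  have hint : Integrable (F z₀) μ :=
    (hb.const_mul (B ‖z₀‖)).mono' (hm z₀) (hF.mono fun s hs => hs.2 z₀)
  have hm' : AEStronglyMeasurable (fun s => deriv (fun z => F z s) z₀) μ := by
    have ht : Tendsto (fun m : ℕ => (1 / ((m : ℂ) + 1))) atTop (𝓝[≠] 0) := by
      refine tendsto_nhdsWithin_iff.2 ⟨tendsto_one_div_add_atTop_nhds_zero_nat, ?_⟩
      refine Eventually.of_forall fun m => ?_
      have : (m : ℂ) + 1 ≠ 0 := by exact_mod_cast Nat.succ_ne_zero m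
      simpa using this
    refine aestronglyMeasurable_of_tendsto_ae atTop
      (f := fun (m : ℕ) s => (1 / ((m : ℂ) + 1))⁻¹ • (F (z₀ + 1 / ((m : ℂ) + 1)) s - F z₀ s))
      (fun m => ((hm (z₀ + 1 / ((m : ℂ) + 1))).sub (hm z₀)).const_smul (1 / ((m : ℂ) + 1))⁻¹)
      (hd.mono fun s hs => ?_)
    exact (hasDerivAt_iff_tendsto_slope_zero.1 (hs z₀).hasDerivAt).comp ht
  refine (hasDerivAt_integral_of_dominated_loc_of_deriv_le (ball_mem_nhds z₀ one_pos)
    (Eventually.of_forall hm) hint (F' := fun z s => deriv (fun z => F z s) z) hm'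
    (bound := fun s => B (‖z₀‖ + 2) * b s) ?_ (hb.const_mul _)
    (hd.mono fun s hs x _ => (hs x).hasDerivAt)).2.differentiableAt
  filter_upwards [hd, hF] with s h1 h2 x hx
  have := Complex.norm_deriv_le_of_forall_mem_sphere_norm_le (c := x)
    (C := B (‖z₀‖ + 2) * b s) one_pos h1.diffContOnCl fun y hy => (h2.2 y).trans
      (mul_le_mul_of_nonneg_right (hB (by
      have h1 : ‖x - z₀‖ < 1 := by simpa [dist_eq_norm] using hx
      have h2 : ‖y - x‖ = 1 := by simpa [dist_eq_norm] using hy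
      calc ‖y‖ = ‖(y - x) + (x - z₀) + z₀‖ := by ring_nf
        _ ≤ ‖y - x‖ + ‖x - z₀‖ + ‖z₀‖ := norm_add₃_le
        _ ≤ _ := by linarith)) h2.1)
  simpa using this

lemma differentiable_dslope {F : ℂ → ℂ} (hd : Differentiable ℂ F) (c : ℂ) :
    Differentiable ℂ (dslope F c) := by
  rw [← differentiableOn_univ]
  exact (Complex.differentiableOn_dslope univ_mem).2 hd.differentiableOn

/-- Maximum principle on a disc about the origin. -/
lemma max_disc {F : ℂ → ℂ} (hd : Differentiable ℂ F) {ρ C : ℝ} (hρ : 0 < ρ)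
    (hC : ∀ w : ℂ, ‖w‖ = ρ → ‖F w‖ ≤ C) {z : ℂ} (hz : ‖z‖ ≤ ρ) : ‖F z‖ ≤ C := by
  refine Complex.norm_le_of_forall_mem_frontier_norm_le (U := ball 0 ρ) isBounded_ball
    hd.diffContOnCl (fun w hw => hC w ?_) ?_
  · rw [frontier_ball _ hρ.ne'] at hw
    simpa using hw
  · rw [closure_ball _ hρ.ne']
    simpa using hz

lemma norm_dslope_zero_le {F : ℂ → ℂ} (hd : Differentiable ℂ F) (h0 : F 0 = 0) {C σ : ℝ}
    (hC : ∀ z, ‖F z‖ ≤ C * Real.exp (σ * ‖z‖)) (z : ℂ) :
    ‖dslope F 0 z‖ ≤ C * Real.exp (σ * (‖z‖ + 1)) := by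
  refine max_disc (differentiable_dslope hd 0) (ρ := ‖z‖ + 1) (by positivity)
    (fun w hw => ?_) (by linarith)
  have hw1 : 1 ≤ ‖w‖ := by rw [hw]; linarith [norm_nonneg z]
  have hw0 : w ≠ 0 := norm_pos_iff.1 (by linarith)
  rw [dslope_of_ne _ hw0, slope_def_field, h0, sub_zero, sub_zero, norm_div, ← hw]
  exact (div_le_self (norm_nonneg _) hw1).trans (hC w)

/-- No entire function equals `|u|^μ` on the real line for `0 < μ < 2`. -/
lemma not_entire_rpow {G : ℂ → ℂ} (hd : Differentiable ℂ G) {m : ℝ} (h0 : 0 < m) (h2 : m < 2)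
    (hG : ∀ u : ℝ, (G u).re = |u| ^ m) : False := by
  set G₂ := dslope (dslope G 0) 0 with hG₂
  have hc : Continuous G₂ := (differentiable_dslope (differentiable_dslope hd 0) 0).continuous
  have hexp : ∀ z : ℂ, G z = G 0 + z * dslope G 0 0 + z ^ 2 * G₂ z := by
    intro z
    have e1 := sub_smul_dslope G 0 z
    have e2 := sub_smul_dslope (dslope G 0) 0 z
    simp only [sub_zero, smul_eq_mul] at e1 e2
    rw [← hG₂] at e2
    linear_combination -e1 - z * e2
  have hG0 : (G 0).re = 0 := by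
    have := hG 0
    simpa [Real.zero_rpow h0.ne'] using this
  have hid : ∀ u : ℝ, 0 < u → 2 * u ^ (m - 2) = (G₂ u + G₂ (-u)).re := by
    intro u hu
    have e1 := hG u
    have e2 := hG (-u)
    rw [abs_of_pos hu] at e1
    rw [abs_neg, abs_of_pos hu] at e2
    have e3 : G u + G ((-u : ℝ) : ℂ) = 2 * G 0 + ((u ^ 2 : ℝ) : ℂ) * (G₂ u + G₂ (-u)) := by
      rw [hexp u, hexp ((-u : ℝ) : ℂ)]; push_cast; ring
    have e4 := congrArg Complex.re e3
    rw [Complex.add_re, e1, e2, Complex.add_re, Complex.re_ofReal_mul] at e4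
    simp only [Complex.mul_re, Complex.re_ofNat, Complex.im_ofNat, hG0, mul_zero, zero_mul,
      sub_zero, zero_add] at e4
    rw [Real.rpow_sub hu, Real.rpow_two]
    field_simp
    linarith
  have t1 : Tendsto (fun u : ℝ => (G₂ u + G₂ (-u)).re) (𝓝[>] 0) (𝓝 (G₂ (0 : ℝ) + G₂ (-(0 : ℝ))).re) :=
    (Continuous.tendsto (by fun_prop) 0).mono_left nhdsWithin_le_nhds
  have t2 : Tendsto (fun u : ℝ => 2 * u ^ (m - 2)) (𝓝[>] 0) atTop :=
    (tendsto_rpow_neg_nhdsGT_zero (by linarith)).const_mul_atTop two_pos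
  have t3 : Tendsto (fun u : ℝ => (G₂ u + G₂ (-u)).re) (𝓝[>] 0) atTop :=
    t2.congr' (eventually_nhdsWithin_of_forall fun u hu => hid u hu)
  exact not_tendsto_nhds_of_tendsto_atTop t3 _ t1

end Pool.Agent.P.MP_7e6317_an
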