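import Pool.Agent.P.MP_7e6317_an.Approx

/-!
Elementary facts on the Hausdorff distance, the abstract limit lemma, the growth of rescaled
polynomials, and an intermediate value lemma.
-/

namespace Pool.Agent.P.MP_7e6317_an

open Set Filter Topology Complex Polynomial

/-- Every point of the graph of `f` has a point of the graph of `g` in a `τ × ε` box. -/
def Match (f g : ℝ → ℝ) (τ ε : ℝ) : Prop :=
  ∀ x ∈ Icc (-1 : ℝ) 1, ∃ y ∈ Icc (-1 : ℝ) 1, |x - y| ≤ τ ∧ |f x - g y| ≤ ε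

lemma bdd_inner (α : ℝ) (f g : ℝ → ℝ) (x : ℝ) :
    BddBelow (range fun y : Icc (-1 : ℝ) 1 => max (|x - y.1| / α) |f x - g y.1|) :=
  ⟨0, by rintro _ ⟨y, rfl⟩; exact le_max_of_le_right (abs_nonneg _)⟩

lemma hdev_nonneg (α : ℝ) (f g : ℝ → ℝ) : 0 ≤ hdev α f g :=
  Real.iSup_nonneg fun _ => Real.iInf_nonneg fun _ => le_max_of_le_right (abs_nonneg _)

lemma hdev_le {α ε : ℝ} (hα : 0 < α) {f g : ℝ → ℝ} (h : Match f g (α * ε) ε) :
    hdev α f g ≤ ε := by
  have : Nonempty (Icc (-1 : ℝ) 1) := ⟨⟨0, by norm_num⟩⟩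
  refine ciSup_le fun x => ?_
  obtain ⟨y, hy, h1, h2⟩ := h x.1 x.2
  exact ciInf_le_of_le (bdd_inner α f g x) ⟨y, hy⟩
    (max_le ((div_le_iff₀' hα).2 h1) h2)

lemma match_of_hdev_lt {α ε : ℝ} (hα : 0 < α) {f g : ℝ → ℝ} (hf : ContinuousOn f (Icc (-1) 1))
    (hg : ContinuousOn g (Icc (-1) 1)) (h : hdev α f g < ε) : Match f g (α * ε) ε := by
  have : Nonempty (Icc (-1 : ℝ) 1) := ⟨⟨0, by norm_num⟩⟩
  obtain ⟨C, hC⟩ := isCompact_Icc.exists_bound_of_continuousOn (hf.sub hg)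
  intro x hx
  have hb : BddAbove (range fun x : Icc (-1 : ℝ) 1 =>
      ⨅ y : Icc (-1 : ℝ) 1, max (|x.1 - y.1| / α) |f x.1 - g y.1|) := by
    refine ⟨C, ?_⟩
    rintro _ ⟨z, rfl⟩
    refine ciInf_le_of_le (bdd_inner α f g z) z (max_le ?_ (hC z.1 z.2))
    simpa using (norm_nonneg _).trans (hC z.1 z.2)
  obtain ⟨y, hy⟩ := exists_lt_of_ciInf_lt ((le_ciSup hb ⟨x, hx⟩).trans_lt h)
  rw [max_lt_iff] at hy
  exact ⟨y.1, y.2, ((div_lt_iff₀' hα).1 hy.1).le, hy.2.le⟩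

lemma bestE_le {n : ℕ} {α ε : ℝ} (hα : 0 < α) {f : ℝ → ℝ} {P : ℝ[X]} (hP : P.natDegree ≤ n)
    (h1 : Match f (fun x => P.eval x) (α * ε) ε) (h2 : Match (fun x => P.eval x) f (α * ε) ε) :
    bestE n α f ≤ ε :=
  ciInf_le_of_le ⟨0, by rintro _ ⟨Q, rfl⟩; exact le_max_of_le_left (hdev_nonneg _ _ _)⟩ ⟨P, hP⟩
    (max_le (hdev_le hα h1) (hdev_le hα h2))

lemma exists_of_bestE_lt {n : ℕ} {α ε : ℝ} (hα : 0 < α) {f : ℝ → ℝ}
    (hf : ContinuousOn f (Icc (-1) 1)) (h : bestE n α f < ε) :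
    ∃ P : ℝ[X], P.natDegree ≤ n ∧ Match f (fun x => P.eval x) (α * ε) ε ∧
      Match (fun x => P.eval x) f (α * ε) ε := by
  have : Nonempty {P : ℝ[X] // P.natDegree ≤ n} := ⟨⟨0, by simp⟩⟩
  obtain ⟨P, hP⟩ := exists_lt_of_ciInf_lt h
  rw [hdist, max_lt_iff] at hP
  exact ⟨P.1, P.2, match_of_hdev_lt hα hf P.1.continuous.continuousOn hP.1,
    match_of_hdev_lt hα P.1.continuous.continuousOn hf hP.2⟩

/-- The abstract limit lemma. -/
lemma limit_of {x : ℕ → ℝ} {S : Set ℝ}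
    (hL : ∀ (U : Ultrafilter ℕ) (a : ℝ) (e : ℕ → ℝ), (U : Filter ℕ) ≤ atTop →
      (∀ᶠ n in (U : Filter ℕ), x n < e n) → Tendsto e U (𝓝 a) → a ∈ S)
    (hU : ∀ a ∈ S, ∀ a', a < a' → ∀ᶠ n in atTop, x n ≤ a') (hne : S.Nonempty)
    (hpos : ∀ a ∈ S, 0 < a) : ∃ c, 0 < c ∧ IsLeast S c ∧ Tendsto x atTop (𝓝 c) := by
  have hb : BddBelow S := ⟨0, fun a ha => (hpos a ha).le⟩
  have ht : Tendsto x atTop (𝓝 (sInf S)) := by
    refine tendsto_order.2 ⟨fun a ha => ?_, fun a ha => ?_⟩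
    · obtain ⟨b, hab, hb'⟩ := exists_between ha
      by_contra hcon
      rw [not_eventually] at hcon
      obtain ⟨U, hU1⟩ := @Ultrafilter.exists_le _ _ (frequently_iff_neBot.1 hcon)
      rw [le_inf_iff, le_principal_iff] at hU1
      have := hL U b (fun _ => b) hU1.1 (mem_of_superset hU1.2 fun n hn =>
        lt_of_le_of_lt (not_lt.1 hn) hab) tendsto_const_nhds
      exact absurd (csInf_le hb this) (not_le.2 hb')
    · obtain ⟨b, hb1, hb2⟩ := exists_lt_of_csInf_lt hne ha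
      obtain ⟨b', h1, h2⟩ := exists_between hb2
      exact (hU b hb1 b' h1).mono fun n hn => hn.trans_lt h2
  have hmem : sInf S ∈ S := by
    refine hL (hyperfilter ℕ) _ (fun n => x n + 1 / ((n : ℝ) + 1)) Nat.hyperfilter_le_atTop
      (Eventually.of_forall fun n => lt_add_of_pos_right _ (by positivity)) ?_
    simpa using (ht.add tendsto_one_div_add_atTop_nhds_zero_nat).mono_left
      Nat.hyperfilter_le_atTop
  exact ⟨_, hpos _ hmem, ⟨hmem, fun a ha => csInf_le hb ha⟩, ht⟩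

/-- Rescaled trigonometric polynomials have an entire limit of type one. -/
lemma exists_limit (U : Ultrafilter ℕ) (hU : (U : Filter ℕ) ≤ atTop) {s : ℂ → ℂ} {sr : ℝ → ℝ}
    (hsd : Differentiable ℂ s) (hs1 : ∀ z, ‖s z‖ ≤ Real.exp |z.im|) (hsr : ∀ u : ℝ, s u = sr u)
    (P : ℕ → ℝ[X]) (κ : ℕ → ℝ) {M : ℝ}
    (hP : ∀ᶠ n in (U : Filter ℕ), (P n).natDegree ≤ n ∧
      ∀ u : ℝ, |κ n * (P n).eval (sr (u / n))| ≤ M * (1 + u ^ 2)) :
    ∃ G : ℂ → ℂ, TypeOne G ∧ ((∀ z, s (-z) = s z) → ∀ z, G (-z) = G z) ∧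
      ∀ (w : ℕ → ℝ) (u : ℝ), Tendsto w U (𝓝 u) →
        Tendsto (fun n => κ n * (P n).eval (sr (w n / n))) U (𝓝 (G u).re) := by
  set F : ℕ → ℂ → ℂ := fun n z => κ n * aeval (s (z / n)) (P n) with hF
  have hd : ∀ n, Differentiable ℂ (F n) := fun n =>
    (((P n).differentiable_aeval).comp (hsd.comp (differentiable_id.div_const _))).const_mul _
  have hreal : ∀ n (u : ℝ), F n u = ((κ n * (P n).eval (sr (u / n)) : ℝ) : ℂ) := by
    intro n u
    have : (u : ℂ) / n = ((u / n : ℝ) : ℂ) := by push_cast; rfl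
    simp only [hF, this, hsr, Complex.ofReal_mul]
    rw [← Complex.coe_algebraMap, aeval_algebraMap_apply, coe_aeval_eq_eval]
  obtain ⟨n₀, hn₀⟩ := hP.exists
  have hM0 : 0 ≤ M := by
    have := (abs_nonneg _).trans (hn₀.2 0)
    simpa using this
  have hb : ∀ᶠ n in (U : Filter ℕ), ∀ z, ‖F n z‖ ≤ M * (1 + ‖z‖) ^ 2 * Real.exp (1 * |z.im|) := by
    filter_upwards [hP, hU (eventually_ge_atTop 1)] with n hn hn1
    have hn0 : (0 : ℝ) < n := by exact_mod_cast hn1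
    refine pl_bound (hd n) zero_le_one
      (C := |κ n| * ∑ i ∈ Finset.range (n + 1), |(P n).coeff i|) (fun z => ?_) fun u => ?_
    · simp only [hF, norm_mul, Complex.norm_real, Real.norm_eq_abs, mul_assoc]
      gcongr
      rw [aeval_eq_sum_range' (Nat.lt_succ_of_le hn.1), Finset.sum_mul]
      refine (norm_sum_le _ _).trans (Finset.sum_le_sum fun i hi => ?_)
      rw [norm_smul, norm_pow, Real.norm_eq_abs]
      gcongr
      have h1 : ‖s (z / n)‖ ≤ Real.exp (‖z‖ / n) := (hs1 _).trans (Real.exp_le_exp.2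
        ((Complex.abs_im_le_norm _).trans (by simp)))
      have h2 : (i : ℝ) ≤ n := by exact_mod_cast Nat.lt_succ_iff.1 (Finset.mem_range.1 hi)
      refine (pow_le_pow_left₀ (norm_nonneg _) h1 i).trans ?_
      rw [← Real.exp_nat_mul]
      refine Real.exp_le_exp.2 ?_
      calc i * (‖z‖ / n) ≤ n * (‖z‖ / n) := by gcongr
        _ = _ := by field_simp
    · rw [hreal, Complex.norm_real]; exact hn.2 u
  obtain ⟨G, hGd, hG⟩ := montel U hd (B := fun r => M * (1 + max r 0) ^ 2 * Real.exp r)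
    (fun r r' h => by simp only; gcongr) (hb.mono fun n hn z => (hn z).trans (by
      rw [max_eq_left (norm_nonneg z), one_mul]
      gcongr
      exact Complex.abs_im_le_norm z))
  have hpt : ∀ z, Tendsto (fun n => F n z) U (𝓝 (G z)) := fun z =>
    hG.tendsto_comp hGd.continuous.continuousAt tendsto_const_nhds
  refine ⟨G, ⟨hGd, fun x => ?_, fun η hη => ?_⟩, fun hs z => ?_, fun w u hw => ?_⟩
  · have h1 := (Complex.continuous_im.tendsto _).comp (hpt x)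
    have h2 : (Complex.im ∘ fun n => F n x) = fun _ => 0 := by
      ext n; simp only [Function.comp, hreal, Complex.ofReal_im]
    rw [h2] at h1
    exact tendsto_nhds_unique h1 tendsto_const_nhds
  · obtain ⟨C, hC0, hC⟩ := sq_le_exp hη
    refine ⟨M * C, fun z => ?_⟩
    refine (le_of_tendsto (hpt z).norm (hb.mono fun n hn => hn z)).trans ?_
    have hz := norm_nonneg z
    have h1 : (1 + ‖z‖) ^ 2 ≤ C * Real.exp (η * ‖z‖) :=
      (pow_le_pow_right₀ (by linarith) (by norm_num)).trans (hC _ hz)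
    calc _ ≤ M * (C * Real.exp (η * ‖z‖)) * Real.exp ‖z‖ := by
          gcongr; rw [one_mul]; exact Complex.abs_im_le_norm z
      _ = _ := by rw [add_mul, one_mul, Real.exp_add]; ring
  · refine tendsto_nhds_unique (hpt (-z)) ((hpt z).congr fun n => ?_)
    simp only [hF, neg_div, hs]
  · have h1 := hG.tendsto_comp hGd.continuous.continuousAt
      ((Complex.continuous_ofReal.tendsto u).comp hw)
    have h2 := (Complex.continuous_re.tendsto _).comp h1
    refine h2.congr fun n => ?_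
    simp only [Function.comp, hreal, Complex.ofReal_re]

/-- Intermediate values up to a tolerance. -/
lemma ivt_near {f : ℝ → ℝ} {p q c κ : ℝ} (hpq : p ≤ q) (hf : ContinuousOn f (Icc p q))
    (hκ : 0 ≤ κ) (h1 : f p - κ ≤ c) (h2 : c ≤ f q + κ) : ∃ y ∈ Icc p q, |c - f y| ≤ κ := by
  rcases le_total c (f p) with h | h
  · exact ⟨p, left_mem_Icc.2 hpq, abs_le.2 ⟨by linarith, by linarith⟩⟩
  rcases le_total (f q) c with h' | h'
  · exact ⟨q, right_mem_Icc.2 hpq, abs_le.2 ⟨by linarith, by linarith⟩⟩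
  obtain ⟨y, hy, e⟩ := intermediate_value_Icc hpq hf ⟨h, h'⟩
  exact ⟨y, hy, by simpa [e] using hκ⟩

lemma exists_ulim (U : Ultrafilter ℕ) {w : ℕ → ℝ} {R : ℝ}
    (h : ∀ᶠ n in (U : Filter ℕ), |w n| ≤ R) : ∃ u, Tendsto w U (𝓝 u) := by
  obtain ⟨c, -, hc⟩ := (isCompact_Icc (a := -R) (b := R)).ultrafilter_le_nhds'
    (U.map w) (Ultrafilter.mem_map.2 (h.mono fun n hn => abs_le.1 hn))
  exact ⟨c, hc⟩

/-- `n sin (w / n)` behaves like `w`. -/
lemma tendsto_mul_sin {l : Filter ℕ} (hl : l ≤ atTop) {w : ℕ → ℝ} {u : ℝ}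
    (hw : Tendsto w l (𝓝 u)) : Tendsto (fun n : ℕ => n * Real.sin (w n / n)) l (𝓝 u) := by
  have h1 : Tendsto (fun n : ℕ => w n / n) l (𝓝 0) :=
    hw.div_atTop (tendsto_natCast_atTop_atTop.mono_left hl)
  have h2 := hw.mul ((Real.continuous_sinc.tendsto 0).comp h1)
  rw [Real.sinc_zero, mul_one] at h2
  refine h2.congr' ?_
  filter_upwards [hl (eventually_ge_atTop 1)] with n hn
  have hn0 : (n : ℝ) ≠ 0 := by
    have : (0 : ℝ) < n := by exact_mod_cast hn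
    exact this.ne'
  by_cases h : w n = 0
  · simp [h]
  · simp only [Function.comp, Real.sinc_of_ne_zero (div_ne_zero h hn0)]
    field_simp

lemma rpow_tangent {l x y : ℝ} (h0 : 0 ≤ l) (h1 : l ≤ 1) (hx : 0 < x) (hy : 0 ≤ y) :
    y ^ l ≤ x ^ l + l * (x ^ l / x) * (y - x) := by
  have e1 : y = x * (1 + (y - x) / x) := by field_simp; ring
  have e2 : -1 ≤ (y - x) / x := by rw [le_div_iff₀ hx]; linarith
  have e3 := rpow_one_add_le_one_add_mul_self e2 h0 h1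
  calc y ^ l = x ^ l * (1 + (y - x) / x) ^ l := by
        rw [← Real.mul_rpow hx.le (by linarith), ← e1]
    _ ≤ x ^ l * (1 + l * ((y - x) / x)) := by gcongr
    _ = _ := by ring

lemma rpow_le_one_add {l x : ℝ} (h0 : 0 ≤ l) (h1 : l ≤ 1) (hx : 0 ≤ x) : x ^ l ≤ 1 + x := by
  have := rpow_tangent h0 h1 one_pos hx
  simp only [Real.one_rpow, div_one, mul_one] at this
  nlinarith

lemma rpow_le_self' {l x : ℝ} (h1 : l ≤ 1) (hx : 1 ≤ x) : x ^ l ≤ x := by
  simpa using Real.rpow_le_rpow_of_exponent_le hx h1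

lemma abs_arcsin_le {y : ℝ} (hy : y ∈ Icc (-1 : ℝ) 1) : |Real.arcsin y| ≤ 2 * |y| := by
  have h := Real.mul_abs_le_abs_sin (x := Real.arcsin y)
    (abs_le.2 ⟨Real.neg_pi_div_two_le_arcsin y, Real.arcsin_le_pi_div_two y⟩)
  rw [Real.sin_arcsin hy.1 hy.2, div_mul_eq_mul_div, div_le_iff₀ Real.pi_pos] at h
  nlinarith [Real.pi_le_four, abs_nonneg y]

end Pool.Agent.P.MP_7e6317_an
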