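import Pool.Agent.P.MP_7e6317_an.Haus

/-!
The limit theorem for `|x|^l` and `|x|^l sgn x`.
-/

namespace Pool.Agent.P.MP_7e6317_an

open Set Filter Topology Complex Polynomial

/-- The common properties of `φ` and `ψ`. -/
structure LineF (l σ : ℝ) (f : ℝ → ℝ) : Prop where
  l0 : 0 < l
  l1 : l ≤ 1
  cont : Continuous f
  pos : ∀ x, 0 ≤ x → f x = x ^ l
  sym : ∀ x, f (-x) = σ * f x
  sig : |σ| = 1

variable {l σ : ℝ} {f : ℝ → ℝ}

lemma LineF.abs (h : LineF l σ f) (x : ℝ) : |f x| = |x| ^ l := by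
  rcases le_total 0 x with hx | hx
  · rw [h.pos x hx, abs_of_nonneg hx, abs_of_nonneg (Real.rpow_nonneg hx _)]
  · have := h.sym (-x)
    rw [neg_neg] at this
    rw [this, abs_mul, h.sig, one_mul, h.pos _ (by linarith), abs_of_nonpos hx,
      abs_of_nonneg (Real.rpow_nonneg (by linarith) _)]

lemma LineF.hom (h : LineF l σ f) {t : ℝ} (ht : 0 ≤ t) (x : ℝ) : f (t * x) = t ^ l * f x := by
  rcases le_total 0 x with hx | hx
  · rw [h.pos x hx, h.pos _ (mul_nonneg ht hx), Real.mul_rpow ht hx]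
  · have e1 := h.sym (-x)
    have e2 := h.sym (t * -x)
    rw [neg_neg] at e1
    rw [mul_neg, neg_neg, ← mul_neg] at e2
    have hx' : 0 ≤ -x := by linarith
    rw [e1, e2, h.pos _ hx', h.pos _ (mul_nonneg ht hx'), Real.mul_rpow ht hx']
    ring

lemma line_lower (h : LineF l σ f) {α k : ℝ} (hα : 0 < α)
    (hk : Tendsto (fun n : ℕ => (n : ℝ) ^ l / n) atTop (𝓝 k))
    (U : Ultrafilter ℕ) (a : ℝ) (e : ℕ → ℝ) (hU : (U : Filter ℕ) ≤ atTop)
    (he : ∀ᶠ n : ℕ in (U : Filter ℕ), α * n * bestE n α f < e n) (ha : Tendsto e U (𝓝 a)) :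
    ∃ G, TypeOne G ∧ Near f G a (k * a / α) := by
  have hn1 : ∀ᶠ n : ℕ in (U : Filter ℕ), (1 : ℝ) ≤ n :=
    ((eventually_ge_atTop 1).filter_mono hU).mono fun n hn => by exact_mod_cast hn
  set A := |a| + 1 with hA
  have heA : ∀ᶠ n : ℕ in (U : Filter ℕ), e n ≤ A :=
    (ha.eventually (gt_mem_nhds (by linarith [le_abs_self a] : a < A))).mono fun n hn => hn.le
  have hex : ∀ᶠ n : ℕ in (U : Filter ℕ), ∃ P : ℝ[X], P.natDegree ≤ n ∧
      (∀ x ∈ Icc (-1 : ℝ) 1, ∃ y ∈ Icc (-1 : ℝ) 1, |n * x - n * y| ≤ e n ∧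
        |f (n * x) - n ^ l * P.eval y| ≤ n ^ l / n * e n / α) ∧
      (∀ x ∈ Icc (-1 : ℝ) 1, ∃ y ∈ Icc (-1 : ℝ) 1, |n * x - n * y| ≤ e n ∧
        |n ^ l * P.eval x - f (n * y)| ≤ n ^ l / n * e n / α) := by
    filter_upwards [he, hn1] with n h1 h2
    have hn0 : (0 : ℝ) < n := by linarith
    obtain ⟨P, p1, p2, p3⟩ := exists_of_bestE_lt (n := n) (ε := e n / (α * n)) hα
      h.cont.continuousOn ((lt_div_iff₀' (by positivity)).2 h1)
    have q1 : ∀ x y : ℝ, |x - y| ≤ α * (e n / (α * n)) → |n * x - n * y| ≤ e n := by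
      intro x y hxy
      rw [← mul_sub, abs_mul, abs_of_pos hn0]
      calc _ ≤ n * (α * (e n / (α * n))) := by gcongr
        _ = _ := by field_simp
    have q2 : ∀ x y : ℝ, |x - y| ≤ e n / (α * n) →
        |n ^ l * x - n ^ l * y| ≤ n ^ l / n * e n / α := by
      intro x y hxy
      rw [← mul_sub, abs_mul, abs_of_pos (by positivity)]
      calc _ ≤ n ^ l * (e n / (α * n)) := by gcongr
        _ = _ := by field_simp
    refine ⟨P, p1, fun x hx => ?_, fun x hx => ?_⟩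
    · obtain ⟨y, hy, r1, r2⟩ := p2 x hx
      exact ⟨y, hy, q1 _ _ r1, by rw [h.hom hn0.le]; exact q2 _ _ r2⟩
    · obtain ⟨y, hy, r1, r2⟩ := p3 x hx
      exact ⟨y, hy, q1 _ _ r1, by rw [h.hom hn0.le]; exact q2 _ _ r2⟩
  obtain ⟨P, hP⟩ := hex.choice
  have hv : Tendsto (fun n : ℕ => (n : ℝ) ^ l / n * e n / α) U (𝓝 (k * a / α)) :=
    ((hk.mono_left hU).mul ha).div_const α
  have hsin : ∀ (n : ℕ) (u : ℝ), (1 : ℝ) ≤ n → |n * Real.sin (u / n)| ≤ |u| := by
    intro n u hn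
    have hn0 : (0 : ℝ) < n := by linarith
    rw [abs_mul, abs_of_pos hn0]
    calc _ ≤ n * |u / n| := mul_le_mul_of_nonneg_left Real.abs_sin_le_abs hn0.le
      _ = _ := by rw [abs_div, abs_of_pos hn0]; field_simp
  obtain ⟨G, hG, -, hlim⟩ := exists_limit U hU Complex.differentiable_sin norm_sin_le
    (fun u => (Complex.ofReal_sin u).symm) P (fun n => (n : ℝ) ^ l) (M := 2 + A + A / α) (by
      filter_upwards [hP, hn1, heA] with n h1 h2 h3
      refine ⟨h1.1, fun u => ?_⟩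
      obtain ⟨y, -, r1, r2⟩ := h1.2.2 _ (Real.sin_mem_Icc (u / n))
      have e1 : |n * y| ≤ |u| + A := by
        linarith [abs_sub_abs_le_abs_sub (n * y) (n * Real.sin (u / n)), abs_sub_comm (n * y)
          (n * Real.sin (u / n)), hsin n u h2]
      have e2 : |f (n * y)| ≤ 1 + (|u| + A) := by
        rw [h.abs]; linarith [rpow_le_one_add h.l0.le h.l1 (abs_nonneg (n * y))]
      have e3 : (n : ℝ) ^ l / n * e n / α ≤ A / α := by
        have : (n : ℝ) ^ l / n ≤ 1 := (div_le_one (by linarith)).2 (rpow_le_self' h.l1 h2)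
        have e4 : 0 ≤ e n := (abs_nonneg _).trans r1
        gcongr
        nlinarith
      have e4 := abs_sub_abs_le_abs_sub ((n : ℝ) ^ l * (P n).eval (Real.sin (u / n))) (f (n * y))
      have e5 : |u| ≤ 1 + u ^ 2 := by nlinarith [sq_abs u, abs_nonneg u]
      have e6 : 0 ≤ A / α := by positivity
      have e7 : 0 ≤ A := by positivity
      nlinarith [sq_nonneg u])
  refine ⟨G, hG, fun x => ?_, fun x => ?_⟩
  · have h1 : ∀ᶠ n : ℕ in (U : Filter ℕ), ∃ w : ℝ, |w| ≤ 2 * (|x| + A) ∧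
        |x - n * Real.sin (w / n)| ≤ e n ∧
        |f x - n ^ l * (P n).eval (Real.sin (w / n))| ≤ n ^ l / n * e n / α := by
      filter_upwards [hP, hn1, heA, hU (tendsto_natCast_atTop_atTop.eventually_ge_atTop |x|)]
        with n h1 h2 h3 h4
      have hn0 : (0 : ℝ) < n := by linarith
      have hx : x / n ∈ Icc (-1 : ℝ) 1 := abs_le.1 (by
        rw [abs_div, abs_of_pos hn0]; exact (div_le_one hn0).2 h4)
      obtain ⟨y, hy, r1, r2⟩ := h1.2.1 _ hx
      rw [mul_div_cancel₀ _ hn0.ne'] at r1 r2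
      refine ⟨n * Real.arcsin y, ?_, ?_⟩
      · have e1 : |n * y| ≤ |x| + A := by
          linarith [abs_sub_abs_le_abs_sub (n * y) x, abs_sub_comm (n * y) x]
        rw [abs_mul, abs_of_pos hn0] at e1 ⊢
        nlinarith [abs_arcsin_le hy]
      · rw [mul_div_cancel_left₀ _ hn0.ne', Real.sin_arcsin hy.1 hy.2]
        exact ⟨r1, r2⟩
    obtain ⟨w, hw⟩ := h1.choice
    obtain ⟨u, hu⟩ := exists_ulim U (hw.mono fun n hn => hn.1)
    exact ⟨u, le_of_tendsto_of_tendsto (tendsto_const_nhds.sub (tendsto_mul_sin hU hu)).abs ha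
        (hw.mono fun n hn => hn.2.1),
      le_of_tendsto_of_tendsto (tendsto_const_nhds.sub (hlim w u hu)).abs hv
        (hw.mono fun n hn => hn.2.2)⟩
  · have h1 : ∀ᶠ n : ℕ in (U : Filter ℕ), ∃ w : ℝ, |w| ≤ |x| + A ∧
        |n * Real.sin (x / n) - w| ≤ e n ∧
        |n ^ l * (P n).eval (Real.sin (x / n)) - f w| ≤ n ^ l / n * e n / α := by
      filter_upwards [hP, hn1, heA] with n h1 h2 h3
      obtain ⟨y, -, r1, r2⟩ := h1.2.2 _ (Real.sin_mem_Icc (x / n))
      refine ⟨n * y, ?_, r1, r2⟩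
      linarith [abs_sub_abs_le_abs_sub (n * y) (n * Real.sin (x / n)), abs_sub_comm (n * y)
        (n * Real.sin (x / n)), hsin n x h2]
    obtain ⟨w, hw⟩ := h1.choice
    obtain ⟨u, hu⟩ := exists_ulim U (hw.mono fun n hn => hn.1)
    exact ⟨u, le_of_tendsto_of_tendsto
        ((tendsto_mul_sin hU (tendsto_const_nhds (x := x))).sub hu).abs ha
        (hw.mono fun n hn => hn.2.1),
      le_of_tendsto_of_tendsto ((hlim (fun _ => x) x tendsto_const_nhds).sub
        ((h.cont.tendsto u).comp hu)).abs hv (hw.mono fun n hn => hn.2.2)⟩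

/-- The damped approximant. -/
noncomputable def damp (g g₀ : ℝ → ℝ) (n u : ℝ) : ℝ := g₀ u + (1 - u ^ 2 / n ^ 2) * (g u - g₀ u)

lemma line_half (h : LineF l σ f) {g g₀ : ℝ → ℝ} (hg : Continuous g) (hg₀ : Continuous g₀)
    {a b a₁ : ℝ} (ha : a < a₁)
    (H1 : ∀ x, ∃ y, |x - y| ≤ a ∧ |f x - g y| ≤ b) (H2 : ∀ x, ∃ y, |x - y| ≤ a ∧ |g x - f y| ≤ b)
    (H0 : ∀ u, ∃ e : ℝ, 0 ≤ e ∧ e ≤ 1 ∧ e * u ^ 4 ≤ 12 ^ 4 ∧ g₀ u = f u * (1 - e)) :
    ∃ D : ℝ, ∀ᶠ n : ℝ in atTop, ∀ u ∈ Icc 0 n,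
      (∃ y ∈ Icc (-n) n, |u - y| ≤ a₁ ∧ |f u - damp g g₀ n y| ≤ b + D / n) ∧
      (∃ y ∈ Icc (-n) n, |u - y| ≤ a₁ ∧ |damp g g₀ n u - f y| ≤ b + D / n) := by
  have hl0 := h.l0
  have hl1 := h.l1
  obtain ⟨ha0, hb0⟩ : 0 ≤ a ∧ 0 ≤ b := by
    obtain ⟨y, h1, h2⟩ := H1 0
    exact ⟨(abs_nonneg _).trans h1, (abs_nonneg _).trans h2⟩
  have ha1 : 0 < a₁ := by linarith
  set R := 1 + a₁ + 12 ^ 4 / (l * a₁) with hR
  have hR1 : 1 + a₁ ≤ R := by
    have : 0 ≤ 12 ^ 4 / (l * a₁) := by positivity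
    linarith
  obtain ⟨C, hC⟩ := (isCompact_Icc (a := -(R + 2 * a₁)) (b := R + 2 * a₁)).exists_bound_of_continuousOn
    (hg.sub hg₀).continuousOn
  have hC0 : 0 ≤ C := (norm_nonneg _).trans (hC 0 ⟨by linarith, by linarith⟩)
  have cor : ∀ n v, R ≤ v → v ≤ n →
      f (v - a₁) - b ≤ damp g g₀ n v ∧ damp g g₀ n v ≤ f (v + a₁) + b := by
    intro n v h1 h2
    have hv : 0 < v := by linarith
    have w0 : 0 ≤ v ^ 2 / n ^ 2 := by positivity
    have w1 : v ^ 2 / n ^ 2 ≤ 1 := (div_le_one (by nlinarith)).2 (by nlinarith)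
    obtain ⟨y, r1, r2⟩ := H2 v
    obtain ⟨e, e0, -, e2, e3⟩ := H0 v
    rw [abs_le] at r1 r2
    rw [h.pos y (by linarith)] at r2
    rw [h.pos v hv.le] at e3
    rw [h.pos _ (by linarith), h.pos _ (by linarith)]
    have m1 : (v - a₁) ^ l ≤ y ^ l := Real.rpow_le_rpow (by linarith) (by linarith) hl0.le
    have m2 : y ^ l ≤ (v + a₁) ^ l := Real.rpow_le_rpow (by linarith) (by linarith) hl0.le
    have m3 : v ^ l ≤ (v + a₁) ^ l := Real.rpow_le_rpow hv.le (by linarith) hl0.le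
    have m4 : 0 ≤ v ^ l := Real.rpow_nonneg hv.le _
    have m5 : (v - a₁) ^ l ≤ g₀ v := by
      refine (rpow_tangent hl0.le hl1 hv (by linarith)).trans ?_
      have e4 : e ≤ l * a₁ / v := by
        rw [le_div_iff₀ hv]
        have e5 : 12 ^ 4 ≤ l * a₁ * v := by
          rw [← div_le_iff₀' (by positivity)]; linarith
        have e6 : v ≤ v ^ 3 := le_self_pow₀ (by linarith) (by norm_num)
        have e7 : e * v * v ^ 3 ≤ l * a₁ * v ^ 3 := by
          calc e * v * v ^ 3 = e * v ^ 4 := by ring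
            _ ≤ l * a₁ * v := by linarith
            _ ≤ _ := by gcongr
        exact le_of_mul_le_mul_right e7 (by positivity)
      have e8 : v ^ l * e ≤ v ^ l * (l * a₁ / v) := by gcongr
      rw [e3]
      have : l * (v ^ l / v) * (v - a₁ - v) = -(v ^ l * (l * a₁ / v)) := by ring
      linarith
    have m6 : g₀ v ≤ (v + a₁) ^ l := by rw [e3]; nlinarith
    unfold damp
    constructor <;> nlinarith
  refine ⟨(R + 2 * a₁) ^ 2 * C + (2 * 12 ^ 4 + 2 * a₁ * (b + a + 12 ^ 4)), ?_⟩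
  filter_upwards [eventually_ge_atTop (2 * (R + 2 * a₁))] with n hn u hu
  have hn1 : 1 ≤ n := by linarith
  have hn0 : 0 < n := by linarith
  have d1 : 0 ≤ (R + 2 * a₁) ^ 2 * C / n := by positivity
  have d2 : 0 ≤ (2 * 12 ^ 4 + 2 * a₁ * (b + a + 12 ^ 4)) / n := by positivity
  rw [add_div]
  rcases le_total u (R + a₁) with hu1 | hu1
  · have near : ∀ y, |u - y| ≤ a₁ → y ∈ Icc (-n) n ∧
        |damp g g₀ n y - g y| ≤ (R + 2 * a₁) ^ 2 * C / n := by
      intro y hy
      rw [abs_le] at hy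
      have y1 : -(R + 2 * a₁) ≤ y := by linarith [hu.1]
      have y2 : y ≤ R + 2 * a₁ := by linarith
      refine ⟨⟨by linarith, by linarith⟩, ?_⟩
      have e1 : damp g g₀ n y - g y = -(y ^ 2 / n ^ 2 * (g y - g₀ y)) := by unfold damp; ring
      rw [e1, abs_neg, abs_mul, abs_of_nonneg (by positivity)]
      have e2 : y ^ 2 ≤ (R + 2 * a₁) ^ 2 := sq_le_sq' y1 y2
      calc _ ≤ (R + 2 * a₁) ^ 2 / n * C := by
            gcongr
            exacts [by nlinarith, hC y ⟨y1, y2⟩]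
        _ = _ := by ring
    constructor
    · obtain ⟨y, r1, r2⟩ := H1 u
      obtain ⟨s1, s2⟩ := near y (by linarith)
      refine ⟨y, s1, by linarith, ?_⟩
      rw [abs_le] at r2 s2 ⊢
      constructor <;> linarith
    · obtain ⟨y, r1, r2⟩ := H2 u
      obtain ⟨-, s2⟩ := near u (by simpa using ha1.le)
      refine ⟨y, (near y (by linarith)).1, by linarith, ?_⟩
      rw [abs_le] at r2 s2 ⊢
      constructor <;> linarith
  rcases le_total u (n - a₁) with hu2 | hu2
  · constructor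
    · obtain ⟨y, hy, r⟩ := ivt_near (f := damp g g₀ n) (p := u - a₁) (q := u + a₁) (c := f u)
        (κ := b) (by linarith) (by unfold damp; fun_prop) hb0
        (by have := (cor n (u - a₁) (by linarith) (by linarith)).2
            rw [sub_add_cancel] at this; linarith)
        (by have := (cor n (u + a₁) (by linarith) (by linarith)).1
            rw [add_sub_cancel_right] at this; linarith)
      exact ⟨y, ⟨by linarith [hy.1], by linarith [hy.2]⟩,
        abs_le.2 ⟨by linarith [hy.2], by linarith [hy.1]⟩, by linarith⟩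
    · obtain ⟨y, hy, r⟩ := ivt_near (f := f) (p := u - a₁) (q := u + a₁) (c := damp g g₀ n u)
        (κ := b) (by linarith) h.cont.continuousOn hb0
        (cor n u (by linarith) hu.2).1 (cor n u (by linarith) hu.2).2
      exact ⟨y, ⟨by linarith [hy.1], by linarith [hy.2]⟩,
        abs_le.2 ⟨by linarith [hy.2], by linarith [hy.1]⟩, by linarith⟩
  · have hend : |damp g g₀ n u - f u| ≤ (2 * 12 ^ 4 + 2 * a₁ * (b + a + 12 ^ 4)) / n := by
      have u1 : 1 ≤ u := by linarith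
      have u0 : 0 < u := by linarith
      obtain ⟨y, r1, r2⟩ := H2 u
      obtain ⟨e, e0, -, e2, e3⟩ := H0 u
      have r3 := abs_le.1 r1
      have y1 : 1 ≤ y := by linarith
      have t1 : |f y - f u| ≤ a := by
        rw [h.pos y (by linarith), h.pos u u0.le]
        have s1 := rpow_tangent hl0.le hl1 u0 (by linarith : 0 ≤ y)
        have s2 := rpow_tangent hl0.le hl1 (by linarith : 0 < y) u0.le
        have s3 : u ^ l / u ≤ 1 := (div_le_one u0).2 (rpow_le_self' hl1 u1)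
        have s4 : y ^ l / y ≤ 1 := (div_le_one (by linarith)).2 (rpow_le_self' hl1 y1)
        have s5 : 0 ≤ u ^ l / u := by positivity
        have s6 : 0 ≤ y ^ l / y := by positivity
        have s7 : l * (u ^ l / u) ≤ 1 := by nlinarith
        have s8 : l * (y ^ l / y) ≤ 1 := by nlinarith
        have s9 : 0 ≤ l * (u ^ l / u) := by positivity
        have s10 : 0 ≤ l * (y ^ l / y) := by positivity
        rw [abs_le]
        constructor <;> nlinarith
      have t2 : |g₀ u - f u| ≤ 12 ^ 4 / u := by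
        have : g₀ u - f u = -(f u * e) := by rw [e3]; ring
        rw [this, abs_neg, h.pos u u0.le, abs_of_nonneg (by positivity), le_div_iff₀ u0]
        have s1 := rpow_le_self' hl1 u1
        calc u ^ l * e * u ≤ u * e * u := by gcongr
          _ = e * u ^ 2 := by ring
          _ ≤ e * u ^ 4 := mul_le_mul_of_nonneg_left (pow_le_pow_right₀ u1 (by norm_num)) e0
          _ ≤ _ := e2
      have t3 : 12 ^ 4 / u ≤ 12 ^ 4 := div_le_self (by positivity) u1
      have t4 : 12 ^ 4 / u ≤ 2 * 12 ^ 4 / n := by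
        rw [div_le_div_iff₀ u0 hn0]; nlinarith
      have t5 : |g u - g₀ u| ≤ b + a + 12 ^ 4 := by
        rw [abs_le] at r2 t1 t2 ⊢
        constructor <;> linarith
      have t6 : 0 ≤ 1 - u ^ 2 / n ^ 2 :=
        sub_nonneg.2 ((div_le_one (by positivity)).2 (by nlinarith [hu.2]))
      have t7 : 1 - u ^ 2 / n ^ 2 ≤ 2 * a₁ / n := by
        rw [one_sub_div (by positivity), div_le_div_iff₀ (by positivity) hn0]
        have : n ^ 2 - u ^ 2 ≤ 2 * a₁ * n := by nlinarith [hu.2]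
        nlinarith
      have e1 : damp g g₀ n u - f u = (g₀ u - f u) + (1 - u ^ 2 / n ^ 2) * (g u - g₀ u) := by
        unfold damp; ring
      rw [e1]
      refine (abs_add_le _ _).trans ?_
      rw [abs_mul, abs_of_nonneg t6]
      calc _ ≤ 2 * 12 ^ 4 / n + 2 * a₁ / n * (b + a + 12 ^ 4) := by
            gcongr; linarith
        _ = _ := by ring
    have hun : u ∈ Icc (-n) n := ⟨by linarith [hu.1], hu.2⟩
    exact ⟨⟨u, hun, by simpa using ha1.le, by rw [abs_sub_comm]; linarith⟩,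
      ⟨u, hun, by simpa using ha1.le, by linarith⟩⟩

end Pool.Agent.P.MP_7e6317_an
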