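import Pool.Agent.P.MP_7e6317_an.Line

/-!
The upper bound and the limit theorem for `|x|^l` and `|x|^l sgn x`.
-/

namespace Pool.Agent.P.MP_7e6317_an

open Set Filter Topology Complex Polynomial

variable {l σ : ℝ} {f : ℝ → ℝ}

lemma line_full (h : LineF l σ f) {g g₀ : ℝ → ℝ} (hg : Continuous g) (hg₀ : Continuous g₀)
    {a b a₁ : ℝ} (ha : a < a₁)
    (H1 : ∀ x, ∃ y, |x - y| ≤ a ∧ |f x - g y| ≤ b) (H2 : ∀ x, ∃ y, |x - y| ≤ a ∧ |g x - f y| ≤ b)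
    (H0 : ∀ u, ∃ e : ℝ, 0 ≤ e ∧ e ≤ 1 ∧ e * u ^ 4 ≤ 12 ^ 4 ∧ g₀ u = f u * (1 - e)) :
    ∃ D : ℝ, ∀ᶠ n : ℝ in atTop, ∀ u ∈ Icc (-n) n,
      (∃ y ∈ Icc (-n) n, |u - y| ≤ a₁ ∧ |f u - damp g g₀ n y| ≤ b + D / n) ∧
      (∃ y ∈ Icc (-n) n, |u - y| ≤ a₁ ∧ |damp g g₀ n u - f y| ≤ b + D / n) := by
  have hσ : σ * σ = 1 := by rw [← abs_mul_abs_self, h.sig, mul_one]
  have hf : ∀ x, f x = σ * f (-x) := fun x => by rw [h.sym, ← mul_assoc, hσ, one_mul]
  have key : ∀ p q : ℝ, |σ * p - σ * q| = |p - q| := fun p q => by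
    rw [← mul_sub, abs_mul, h.sig, one_mul]
  have kn : ∀ p q : ℝ, |p - -q| = |-p - q| := fun p q => by
    rw [← abs_neg]; congr 1; ring
  obtain ⟨D₁, h1⟩ := line_half h hg hg₀ ha H1 H2 H0
  obtain ⟨D₂, h2⟩ := line_half h (g := fun u => σ * g (-u)) (g₀ := fun u => σ * g₀ (-u))
    (by fun_prop) (by fun_prop) ha (a := a) (b := b)
    (fun x => by
      obtain ⟨y, r1, r2⟩ := H1 (-x)
      exact ⟨-y, by rwa [kn], by rw [hf x, neg_neg, key]; exact r2⟩)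
    (fun x => by
      obtain ⟨y, r1, r2⟩ := H2 (-x)
      exact ⟨-y, by rwa [kn], by rw [h.sym y, key]; exact r2⟩)
    (fun u => by
      obtain ⟨e, e0, e1, e2, e3⟩ := H0 (-u)
      exact ⟨e, e0, e1, by simpa [Even.neg_pow (by decide : Even 4)] using e2,
        by rw [e3, hf u]; ring⟩)
  refine ⟨max D₁ D₂, ?_⟩
  filter_upwards [h1, h2, eventually_gt_atTop 0] with n p1 p2 hn u hu
  have m1 : D₁ / n ≤ max D₁ D₂ / n := by gcongr; exact le_max_left _ _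
  have m2 : D₂ / n ≤ max D₁ D₂ / n := by gcongr; exact le_max_right _ _
  have hd : ∀ y, damp (fun u => σ * g (-u)) (fun u => σ * g₀ (-u)) n y =
      σ * damp g g₀ n (-y) := fun y => by unfold damp; ring
  rcases le_total 0 u with h0 | h0
  · obtain ⟨⟨y, r1, r2, r3⟩, ⟨y', s1, s2, s3⟩⟩ := p1 u ⟨h0, hu.2⟩
    exact ⟨⟨y, r1, r2, by linarith⟩, ⟨y', s1, s2, by linarith⟩⟩
  · obtain ⟨⟨y, r1, r2, r3⟩, ⟨y', s1, s2, s3⟩⟩ := p2 (-u) ⟨by linarith, by linarith [hu.1]⟩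
    rw [hd, h.sym, key] at r3
    rw [hd, neg_neg, hf y', key] at s3
    exact ⟨⟨-y, ⟨by linarith [r1.2], by linarith [r1.1]⟩, by rwa [kn], by linarith⟩,
      ⟨-y', ⟨by linarith [s1.2], by linarith [s1.1]⟩, by rwa [kn], by linarith⟩⟩

lemma TypeOne.cont {G : ℂ → ℂ} (hG : TypeOne G) : Continuous fun u : ℝ => (G u).re :=
  Complex.continuous_re.comp (hG.1.continuous.comp Complex.continuous_ofReal)

lemma line_upper (h : LineF l σ f) {α k : ℝ} (hα : 0 < α)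
    (hk : ∀ n : ℝ, 1 ≤ n → k ≤ n ^ l / n) {G₀ : ℂ → ℂ} (hG₀ : TypeOne G₀)
    (H0 : ∀ u : ℝ, ∃ e : ℝ, 0 ≤ e ∧ e ≤ 1 ∧ e * u ^ 4 ≤ 12 ^ 4 ∧ (G₀ u).re = f u * (1 - e))
    {a : ℝ} {G : ℂ → ℂ} (hG : TypeOne G) (hN : Near f G a (k * a / α)) {a' : ℝ} (ha : a < a') :
    ∀ᶠ N : ℕ in atTop, α * N * bestE N α f ≤ a' := by
  obtain ⟨ha0, hb0⟩ : 0 ≤ a ∧ 0 ≤ k * a / α := by
    obtain ⟨y, h1, h2⟩ := hN.1 0
    exact ⟨(abs_nonneg _).trans h1, (abs_nonneg _).trans h2⟩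
  set b := k * a / α with hb
  set a₁ := (a + a') / 2 with ha₁
  have h1 : a < a₁ := by linarith
  have h2 : a₁ < a' := by linarith
  have h3 : 0 < a₁ := by linarith
  have h4 : 0 < a' := by linarith
  set ρ := a₁ / a' with hρ
  have hρ0 : 0 < ρ := by positivity
  have hρ1 : ρ < 1 := (div_lt_one h4).2 h2
  obtain ⟨D, hD⟩ := line_full h hG.cont hG₀.cont h1 hN.1 hN.2 H0
  have hu : ∀ u : ℝ, |u| ≤ 1 + u ^ 2 := fun u => by nlinarith [sq_abs u, abs_nonneg u]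
  have hf : ∀ u, |f u| ≤ 1 + |u| := fun u => by
    rw [h.abs]; exact rpow_le_one_add h.l0.le h.l1 (abs_nonneg u)
  have hA := poly_approx_lin hG (M := 2 + a + b) (fun u => by
    obtain ⟨y, r1, r2⟩ := hN.2 u
    have e1 := abs_sub_abs_le_abs_sub (G u).re (f y)
    have e2 := abs_sub_abs_le_abs_sub y u
    rw [abs_sub_comm] at e2
    nlinarith [hf y, hu u, sq_nonneg u]) hρ0 hρ1 2 one_pos
  have hB := poly_approx_lin hG₀ (M := 2) (fun u => by
    obtain ⟨e, e0, e1, -, e3⟩ := H0 u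
    rw [e3, abs_mul, abs_of_nonneg (by linarith : 0 ≤ 1 - e)]
    nlinarith [hf u, hu u, sq_nonneg u, abs_nonneg (f u)]) hρ0 hρ1 2 one_pos
  have ht : Tendsto (fun N : ℕ => ρ * N) atTop atTop :=
    tendsto_natCast_atTop_atTop.const_mul_atTop hρ0
  have ht2 : Tendsto (fun N : ℕ => (a₁ - a) * (ρ * N) ^ l) atTop atTop :=
    ((tendsto_rpow_atTop h.l0).comp ht).const_mul_atTop (by linarith)
  filter_upwards [hA, hB, ht.eventually hD, ht.eventually_ge_atTop 1,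
    ht2.eventually_ge_atTop ((D + 1) * α)] with N ⟨P₁, p1, p2⟩ ⟨P₀, q1, q2⟩ hm hn1 hbig
  set n := ρ * N with hn
  have hn0 : 0 < n := by linarith
  have hN0 : (0 : ℝ) < N := (mul_pos_iff_of_pos_left hρ0).1 hn0
  have hnN : n ≤ N := by rw [hn]; nlinarith
  have hl : 0 < n ^ l := by positivity
  set P : ℝ[X] := C (n ^ l)⁻¹ * (P₀ + (1 - X ^ 2) * (P₁ - P₀)) with hP
  have hdeg : P.natDegree ≤ N := by
    refine (natDegree_C_mul_le _ _).trans ((natDegree_add_le _ _).trans (max_le (by omega) ?_))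
    refine natDegree_mul_le.trans ?_
    have e1 : (1 - X ^ 2 : ℝ[X]).natDegree ≤ 2 := by compute_degree
    have e2 : (P₁ - P₀).natDegree ≤ max P₁.natDegree P₀.natDegree := natDegree_sub_le _ _
    omega
  have happ : ∀ y ∈ Icc (-n) n, y / n ∈ Icc (-1 : ℝ) 1 ∧
      |n ^ l * P.eval (y / n) - damp (fun u => (G u).re) (fun u => (G₀ u).re) n y| ≤ 1 / n := by
    intro y hy
    have hy' : y / n ∈ Icc (-1 : ℝ) 1 :=
      ⟨by rw [le_div_iff₀ hn0]; linarith [hy.1], by rw [div_le_iff₀ hn0]; linarith [hy.2]⟩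
    refine ⟨hy', ?_⟩
    have e1 := p2 _ hy'
    have e2 := q2 _ hy'
    rw [mul_div_cancel₀ _ hn0.ne'] at e1 e2
    have e3 : 1 / (N : ℝ) ^ 2 ≤ 1 / n := by
      gcongr; nlinarith
    have w0 : 0 ≤ (y / n) ^ 2 := by positivity
    have w1 : (y / n) ^ 2 ≤ 1 := by nlinarith [hy'.1, hy'.2]
    have e4 : n ^ l * P.eval (y / n) - damp (fun u => (G u).re) (fun u => (G₀ u).re) n y =
        (y / n) ^ 2 * (P₀.eval (y / n) - (G₀ y).re) +
          (1 - (y / n) ^ 2) * (P₁.eval (y / n) - (G y).re) := by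
      simp only [hP, damp, eval_mul, eval_C, eval_add, eval_sub, eval_one, eval_pow, eval_X]
      field_simp; ring
    rw [e4]
    refine (abs_add_le _ _).trans ?_
    rw [abs_mul, abs_mul, abs_of_nonneg w0, abs_of_nonneg (by linarith : 0 ≤ 1 - (y / n) ^ 2)]
    nlinarith
  have hε : a' / (α * N) = a₁ / (α * n) := by rw [hn, hρ]; field_simp
  have hvert : ∀ p q : ℝ, |n ^ l * p - n ^ l * q| ≤ b + D / n + 1 / n →
      |p - q| ≤ a₁ / (α * n) := by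
    intro p q hpq
    rw [← mul_sub, abs_mul, abs_of_pos hl] at hpq
    refine le_of_mul_le_mul_left (hpq.trans ?_) hl
    have e1 : b ≤ n ^ l / n * a / α := by rw [hb]; gcongr; exact hk n hn1
    have e2 : D / n + 1 / n ≤ (a₁ - a) * n ^ l / α / n := by
      rw [← add_div]; gcongr; rwa [le_div_iff₀ hα]
    calc b + D / n + 1 / n ≤ n ^ l / n * a / α + (a₁ - a) * n ^ l / α / n := by linarith
      _ = _ := by field_simp; ring
  have hhor : ∀ x y : ℝ, |n * x - y| ≤ a₁ → |x - y / n| ≤ α * (a₁ / (α * n)) := by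
    intro x y hxy
    have : x - y / n = (n * x - y) / n := by field_simp
    rw [this, abs_div, abs_of_pos hn0]
    calc _ ≤ a₁ / n := by gcongr
      _ = _ := by field_simp
  have hx : ∀ x ∈ Icc (-1 : ℝ) 1, n * x ∈ Icc (-n) n := fun x hx =>
    ⟨by nlinarith [hx.1], by nlinarith [hx.2]⟩
  rw [← le_div_iff₀' (by positivity), hε]
  refine bestE_le hα hdeg (fun x hx' => ?_) fun x hx' => ?_
  · obtain ⟨y, r1, r2, r3⟩ := (hm _ (hx x hx')).1
    refine ⟨y / n, (happ y r1).1, hhor _ _ r2, hvert _ _ ?_⟩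
    have e1 := (happ y r1).2
    rw [← h.hom hn0.le]
    rw [abs_le] at r3 e1 ⊢
    constructor <;> linarith
  · obtain ⟨y, r1, r2, r3⟩ := (hm _ (hx x hx')).2
    refine ⟨y / n, (happ y r1).1, hhor _ _ r2, hvert _ _ ?_⟩
    have e1 := (happ _ (hx x hx')).2
    rw [mul_div_cancel_left₀ _ hn0.ne'] at e1
    rw [← h.hom hn0.le, mul_div_cancel₀ _ hn0.ne']
    rw [abs_le] at r3 e1 ⊢
    constructor <;> linarith

/-- The comparison function is feasible for a large horizontal distance. -/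
lemma line_feasible (h : LineF l σ f) {G₀ : ℂ → ℂ} (hG₀ : TypeOne G₀)
    (H0 : ∀ u : ℝ, ∃ e : ℝ, 0 ≤ e ∧ e ≤ 1 ∧ e * u ^ 4 ≤ 12 ^ 4 ∧ (G₀ u).re = f u * (1 - e)) :
    ∃ a, 0 ≤ a ∧ Near f G₀ a 0 := by
  have hl0 := h.l0
  have hσ : σ * σ = 1 := by rw [← abs_mul_abs_self, h.sig, mul_one]
  set a := 1 + 12 ^ 4 / l with ha
  have ha1 : 1 ≤ a := by
    have : 0 ≤ 12 ^ 4 / l := by positivity
    linarith
  have gen : ∀ g : ℝ → ℝ, Continuous g →
      (∀ u : ℝ, ∃ e : ℝ, 0 ≤ e ∧ e ≤ 1 ∧ e * u ^ 4 ≤ 12 ^ 4 ∧ g u = f u * (1 - e)) →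
      ∀ x, 0 ≤ x → (∃ y, |x - y| ≤ a ∧ f x = g y) ∧ ∃ y, |x - y| ≤ a ∧ g x = f y := by
    intro g hg H x hx
    have up : ∀ v, 0 ≤ v → g v ≤ f v := fun v hv => by
      obtain ⟨e, e0, -, -, e3⟩ := H v
      rw [e3, h.pos v hv]; nlinarith [Real.rpow_nonneg hv l]
    have lo : ∀ v, 0 ≤ v → f (max (v - a) 0) ≤ g v := fun v hv => by
      obtain ⟨e, e0, e1, e2, e3⟩ := H v
      rw [e3, h.pos v hv, h.pos _ (le_max_right _ _)]
      rcases le_total v a with hva | hva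
      · rw [max_eq_right (by linarith), Real.zero_rpow hl0.ne']
        exact mul_nonneg (Real.rpow_nonneg hv l) (by linarith)
      · have v0 : 0 < v := by linarith
        rw [max_eq_left (by linarith)]
        refine (rpow_tangent hl0.le h.l1 v0 (by linarith)).trans ?_
        have e4 : e ≤ l * a / v := by
          rw [le_div_iff₀ v0]
          have e5 : 12 ^ 4 ≤ l * a := by rw [← div_le_iff₀' hl0]; linarith
          have e6 : v ≤ v ^ 4 := le_self_pow₀ (by linarith) (by norm_num)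
          nlinarith
        have e8 : v ^ l * e ≤ v ^ l * (l * a / v) := by gcongr
        have : l * (v ^ l / v) * (v - a - v) = -(v ^ l * (l * a / v)) := by ring
        linarith
    constructor
    · have e1 := lo (x + a) (by linarith)
      rw [add_sub_cancel_right, max_eq_left hx] at e1
      obtain ⟨y, hy, e⟩ := intermediate_value_Icc (by linarith : x ≤ x + a) hg.continuousOn
        ⟨up x hx, e1⟩
      exact ⟨y, abs_le.2 ⟨by linarith [hy.2], by linarith [hy.1]⟩, e.symm⟩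
    · obtain ⟨y, hy, e⟩ := intermediate_value_Icc (max_le (by linarith) hx : max (x - a) 0 ≤ x)
        h.cont.continuousOn ⟨lo x hx, up x hx⟩
      exact ⟨y, abs_le.2 ⟨by linarith [hy.2], by linarith [hy.1, le_max_left (x - a) 0]⟩, e.symm⟩
  have g1 := gen _ hG₀.cont H0
  have g2 := gen (fun u => σ * (G₀ ((-u : ℝ) : ℂ)).re)
    ((hG₀.cont.comp continuous_neg).const_mul σ) fun u => by
      obtain ⟨e, e0, e1, e2, e3⟩ := H0 (-u)
      refine ⟨e, e0, e1, by simpa [Even.neg_pow (by decide : Even 4)] using e2, ?_⟩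
      rw [e3, h.sym, ← mul_assoc, ← mul_assoc, hσ, one_mul]
  have kn : ∀ p q : ℝ, |p - -q| = |-p - q| := fun p q => by
    rw [← abs_neg]; congr 1; ring
  have canc : ∀ p q : ℝ, σ * p = σ * q → p = q := fun p q hpq => by
    have := congrArg (σ * ·) hpq
    simpa only [← mul_assoc, hσ, one_mul] using this
  refine ⟨a, by linarith, fun x => ?_, fun x => ?_⟩ <;> rcases le_total 0 x with hx | hx
  · obtain ⟨y, r1, r2⟩ := (g1 x hx).1
    exact ⟨y, r1, by simp [r2]⟩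
  · obtain ⟨y, r1, r2⟩ := (g2 (-x) (by linarith)).1
    rw [h.sym] at r2
    exact ⟨-y, by rwa [kn], by rw [canc _ _ r2]; simp⟩
  · obtain ⟨y, r1, r2⟩ := (g1 x hx).2
    exact ⟨y, r1, by simp [r2]⟩
  · obtain ⟨y, r1, r2⟩ := (g2 (-x) (by linarith)).2
    have e : f y = σ * f (-y) := by rw [h.sym, ← mul_assoc, hσ, one_mul]
    rw [neg_neg, e] at r2
    exact ⟨-y, by rwa [kn], by rw [canc _ _ r2]; simp⟩

lemma line_limit (h : LineF l σ f) {α k : ℝ} (hα : 0 < α) (hk0 : 0 ≤ k)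
    (hk1 : Tendsto (fun n : ℕ => (n : ℝ) ^ l / n) atTop (𝓝 k))
    (hk : ∀ n : ℝ, 1 ≤ n → k ≤ n ^ l / n) {G₀ : ℂ → ℂ} (hG₀ : TypeOne G₀)
    (H0 : ∀ u : ℝ, ∃ e : ℝ, 0 ≤ e ∧ e ≤ 1 ∧ e * u ^ 4 ≤ 12 ^ 4 ∧ (G₀ u).re = f u * (1 - e))
    (hno : ∀ G, TypeOne G → ¬ ∀ u : ℝ, (G u).re = f u) :
    ∃ c, 0 < c ∧ IsLeast {a | ∃ G, TypeOne G ∧ Near f G a (k * a / α)} c ∧
      Tendsto (fun n : ℕ => α * n * bestE n α f) atTop (𝓝 c) := by
  refine limit_of (fun U a e h1 h2 h3 => line_lower h hα hk1 U a e h1 h2 h3)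
    (fun a ⟨G, h1, h2⟩ a' h3 => line_upper h hα hk hG₀ H0 h1 h2 h3) ?_ ?_
  · obtain ⟨a, h1, h2⟩ := line_feasible h hG₀ H0
    have : 0 ≤ k * a / α := by positivity
    exact ⟨a, G₀, hG₀, fun x => (h2.1 x).imp fun y hy => ⟨hy.1, hy.2.trans this⟩,
      fun x => (h2.2 x).imp fun y hy => ⟨hy.1, hy.2.trans this⟩⟩
  · rintro a ⟨G, h1, h2⟩
    by_contra hcon
    obtain ⟨y, r1, -⟩ := h2.1 0
    have ha : a = 0 := le_antisymm (not_lt.1 hcon) ((abs_nonneg _).trans r1)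
    refine hno G h1 fun u => ?_
    obtain ⟨y, r1, r2⟩ := h2.2 u
    simp only [ha, mul_zero, zero_div, abs_nonpos_iff, sub_eq_zero] at r1 r2
    rw [r2, r1]

end Pool.Agent.P.MP_7e6317_an
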