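import Pool.Agent.P.MP_7e6317_an.Line2

/-!
The lower bound and the core of the upper bound for `(1 - x^2)^l`.
-/

namespace Pool.Agent.P.MP_7e6317_an

open Set Filter Topology Complex Polynomial

variable {l : ℝ}

lemma sq_rpow (l w : ℝ) : (w ^ 2) ^ l = |w| ^ (2 * l) := by
  rw [← sq_abs, ← Real.rpow_natCast, ← Real.rpow_mul (abs_nonneg w)]; norm_num

lemma theta_cont (h0 : 0 < l) : Continuous (theta l) := by
  unfold theta
  exact (by fun_prop : Continuous fun x : ℝ => 1 - x ^ 2).rpow_const fun _ => Or.inr h0.le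

lemma theta_hom {T x : ℝ} (hT : 0 ≤ T) (hx : x ∈ Icc (-1 : ℝ) 1) :
    T ^ l * theta l x = (T * (1 - x ^ 2)) ^ l := by
  rw [theta, Real.mul_rpow hT (by nlinarith [hx.1, hx.2])]

lemma sqrt_le_one_add {t : ℝ} (ht : 0 ≤ t) : √t ≤ 1 + t :=
  Real.sqrt_le_iff.2 ⟨by linarith, by nlinarith⟩

lemma theta_lower (h0 : 0 < l) (h1 : l < 1) {α : ℝ} (hα : 0 < α)
    (U : Ultrafilter ℕ) (a : ℝ) (e : ℕ → ℝ) (hU : (U : Filter ℕ) ≤ atTop)
    (he : ∀ᶠ n : ℕ in (U : Filter ℕ), α * (n : ℝ) ^ 2 * bestE n α (theta l) < e n)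
    (ha : Tendsto e U (𝓝 a)) :
    ∃ H, TypeOne H ∧ (∀ z, H (-z) = H z) ∧ NearSq l H a := by
  have hn1 : ∀ᶠ n : ℕ in (U : Filter ℕ), (1 : ℝ) ≤ n :=
    ((eventually_ge_atTop 1).filter_mono hU).mono fun n hn => by exact_mod_cast hn
  set A := |a| + 1 with hA
  have hA0 : 0 ≤ A := by positivity
  have heA : ∀ᶠ n : ℕ in (U : Filter ℕ), e n ≤ A :=
    (ha.eventually (gt_mem_nhds (by linarith [le_abs_self a] : a < A))).mono fun n hn => hn.le
  have hsq : Tendsto (fun n : ℕ => (n : ℝ) ^ 2) U atTop :=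
    ((tendsto_pow_atTop two_ne_zero).comp tendsto_natCast_atTop_atTop).mono_left hU
  set κ : ℕ → ℝ := fun n => ((n : ℝ) ^ 2) ^ l with hκ
  set v : ℕ → ℝ := fun n => κ n / (n : ℝ) ^ 2 * e n / α with hv
  have hex : ∀ᶠ n : ℕ in (U : Filter ℕ), ∃ P : ℝ[X], P.natDegree ≤ n ∧
      (∀ x ∈ Icc (-1 : ℝ) 1, ∃ y ∈ Icc (-1 : ℝ) 1, (n : ℝ) ^ 2 * |x - y| ≤ e n ∧
        |((n : ℝ) ^ 2 * (1 - x ^ 2)) ^ l - κ n * P.eval y| ≤ v n) ∧
      (∀ x ∈ Icc (-1 : ℝ) 1, ∃ y ∈ Icc (-1 : ℝ) 1, (n : ℝ) ^ 2 * |x - y| ≤ e n ∧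
        |κ n * P.eval x - ((n : ℝ) ^ 2 * (1 - y ^ 2)) ^ l| ≤ v n) := by
    filter_upwards [he, hn1] with n h1 h2
    have hn0 : (0 : ℝ) < (n : ℝ) ^ 2 := by positivity
    obtain ⟨P, p1, p2, p3⟩ := exists_of_bestE_lt (n := n) (ε := e n / (α * (n : ℝ) ^ 2)) hα
      (theta_cont h0).continuousOn ((lt_div_iff₀' (by positivity)).2 h1)
    have q1 : ∀ x y : ℝ, |x - y| ≤ α * (e n / (α * (n : ℝ) ^ 2)) →
        (n : ℝ) ^ 2 * |x - y| ≤ e n := by
      intro x y hxy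
      calc _ ≤ (n : ℝ) ^ 2 * (α * (e n / (α * (n : ℝ) ^ 2))) := by gcongr
        _ = _ := by field_simp
    have q2 : ∀ x y : ℝ, |x - y| ≤ e n / (α * (n : ℝ) ^ 2) → |κ n * x - κ n * y| ≤ v n := by
      intro x y hxy
      have : 0 < κ n := Real.rpow_pos_of_pos hn0 _
      rw [← mul_sub, abs_mul, abs_of_pos this]
      calc _ ≤ κ n * (e n / (α * (n : ℝ) ^ 2)) := by gcongr
        _ = _ := by simp only [hv]; field_simp
    refine ⟨P, p1, fun x hx => ?_, fun x hx => ?_⟩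
    · obtain ⟨y, hy, r1, r2⟩ := p2 x hx
      exact ⟨y, hy, q1 _ _ r1, by rw [← theta_hom hn0.le hx]; exact q2 _ _ r2⟩
    · obtain ⟨y, hy, r1, r2⟩ := p3 x hx
      exact ⟨y, hy, q1 _ _ r1, by rw [← theta_hom hn0.le hy]; exact q2 _ _ r2⟩
  obtain ⟨P, hP⟩ := hex.choice
  have hv0 : Tendsto v U (𝓝 0) := by
    have t1 : Tendsto (fun n : ℕ => ((n : ℝ) ^ 2) ^ (-(1 - l))) U (𝓝 0) :=
      (tendsto_rpow_neg_atTop (by linarith)).comp hsq
    have t2 : Tendsto (fun n : ℕ => κ n / (n : ℝ) ^ 2) U (𝓝 0) := by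
      refine t1.congr' (hn1.mono fun n hn => ?_)
      simp only [hκ, neg_sub]
      rw [Real.rpow_sub_one (by positivity)]
    simpa using (t2.mul ha).div_const α
  have hdiff : ∀ (T x y E : ℝ), 0 ≤ T → x ∈ Icc (-1 : ℝ) 1 → y ∈ Icc (-1 : ℝ) 1 →
      T * |x - y| ≤ E → |T * (1 - x ^ 2) / 2 - T * (1 - y ^ 2) / 2| ≤ E := by
    intro T x y E hT hx hy hxy
    have e1 : T * (1 - x ^ 2) / 2 - T * (1 - y ^ 2) / 2 = -(T * (x - y) * ((x + y) / 2)) := by ring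
    have e2 : |(x + y) / 2| ≤ 1 := abs_le.2 ⟨by linarith [hx.1, hy.1], by linarith [hx.2, hy.2]⟩
    rw [e1, abs_neg, abs_mul, abs_mul, abs_of_nonneg hT]
    exact (mul_le_of_le_one_right (by positivity) e2).trans hxy
  have hcos : ∀ (n : ℕ) (u : ℝ),
      (n : ℝ) ^ 2 * (1 - Real.cos (u / n) ^ 2) = (n * Real.sin (u / n)) ^ 2 := by
    intro n u; rw [mul_pow, Real.sin_sq]
  have hsin : ∀ (n : ℕ) (u : ℝ), (1 : ℝ) ≤ n → (n * Real.sin (u / n)) ^ 2 ≤ u ^ 2 := by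
    intro n u hn
    have hn0 : (0 : ℝ) < n := by linarith
    rw [mul_pow]
    calc _ ≤ (n : ℝ) ^ 2 * (u / n) ^ 2 := mul_le_mul_of_nonneg_left Real.sin_sq_le_sq (by positivity)
      _ = _ := by field_simp
  have hnn : ∀ (n : ℕ) (y : ℝ), y ∈ Icc (-1 : ℝ) 1 → 0 ≤ (n : ℝ) ^ 2 * (1 - y ^ 2) :=
    fun n y hy => mul_nonneg (by positivity) (by nlinarith [hy.1, hy.2])
  obtain ⟨H, hH, hev, hlim⟩ := exists_limit U hU Complex.differentiable_cos norm_cos_le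
    (fun u => (Complex.ofReal_cos u).symm) P κ (M := 2 + 2 * A) (by
      filter_upwards [hP, hn1, heA, hv0.eventually (gt_mem_nhds one_pos)] with n h1' h2 h3 h4
      refine ⟨h1'.1, fun u => ?_⟩
      obtain ⟨y, hy, r1, r2⟩ := h1'.2.2 _ (Real.cos_mem_Icc (u / n))
      have e1 := abs_le.1 (hdiff _ _ _ _ (by positivity) (Real.cos_mem_Icc (u / n)) hy r1)
      rw [hcos] at e1
      have e2 := rpow_le_one_add h0.le h1.le (hnn n y hy)
      have e3 := Real.rpow_nonneg (hnn n y hy) l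
      have e4 := hsin n u h2
      rw [abs_le] at r2 ⊢
      constructor <;> nlinarith [sq_nonneg u])
  refine ⟨H, hH, hev Complex.cos_neg, fun w => ?_, fun u => ?_⟩
  · have h2 : ∀ᶠ n : ℕ in (U : Filter ℕ), ∃ u : ℝ, |u| ≤ 2 * (1 + (w ^ 2 + 2 * A)) ∧
        |w ^ 2 / 2 - (n * Real.sin (u / n)) ^ 2 / 2| ≤ e n ∧
        |(w ^ 2) ^ l - κ n * (P n).eval (Real.cos (u / n))| ≤ v n := by
      filter_upwards [hP, hn1, heA, hsq.eventually_ge_atTop (2 * w ^ 2),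
        hsq.eventually_ge_atTop (2 * A)] with n h1' h2 h3 h4 h5
      have hn0 : (0 : ℝ) < n := by linarith
      have hw1 : w ^ 2 / (n : ℝ) ^ 2 ≤ 1 / 2 := by
        rw [div_le_iff₀ (by positivity)]; linarith
      have hw0 : 0 ≤ w ^ 2 / (n : ℝ) ^ 2 := by positivity
      set x := √(1 - w ^ 2 / (n : ℝ) ^ 2) with hx
      have hx2 : x ^ 2 = 1 - w ^ 2 / (n : ℝ) ^ 2 := Real.sq_sqrt (by linarith)
      have hx0 : 1 / 2 ≤ x := Real.le_sqrt_of_sq_le (by linarith)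
      have hx1 : x ∈ Icc (-1 : ℝ) 1 := ⟨by linarith, by nlinarith⟩
      have hxw : (n : ℝ) ^ 2 * (1 - x ^ 2) = w ^ 2 := by rw [hx2]; field_simp; ring
      obtain ⟨y, hy, r1, r2⟩ := h1'.2.1 _ hx1
      have r3 := hdiff _ _ _ _ (by positivity) hx1 hy r1
      rw [hxw] at r2 r3
      have hy0 : 0 ≤ y := by
        have e1 : |x - y| ≤ 1 / 2 := by
          refine le_of_mul_le_mul_left (r1.trans ?_) (by positivity : (0 : ℝ) < (n : ℝ) ^ 2)
          linarith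
        linarith [le_abs_self (x - y)]
      have hc : Real.cos (n * Real.arccos y / n) = y := by
        rw [mul_div_cancel_left₀ _ hn0.ne', Real.cos_arccos hy.1 hy.2]
      refine ⟨n * Real.arccos y, ?_, by rwa [← hcos, hc], by rwa [hc]⟩
      have e0 : 0 ≤ 1 - y ^ 2 := by nlinarith [hy.2]
      have e1 := abs_arcsin_le (y := √(1 - y ^ 2))
        ⟨by linarith [Real.sqrt_nonneg (1 - y ^ 2)], Real.sqrt_le_one.2 (by nlinarith)⟩
      have e2 : n * √(1 - y ^ 2) = √((n : ℝ) ^ 2 * (1 - y ^ 2)) := by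
        rw [Real.sqrt_mul (by positivity), Real.sqrt_sq hn0.le]
      have e3 := sqrt_le_one_add (hnn n y hy)
      have e4 := abs_le.1 r3
      rw [abs_mul, abs_of_pos hn0, Real.arccos_eq_arcsin hy0]
      rw [abs_of_nonneg (Real.sqrt_nonneg _)] at e1
      calc _ ≤ n * (2 * √(1 - y ^ 2)) := by gcongr
        _ = 2 * (n * √(1 - y ^ 2)) := by ring
        _ ≤ _ := by rw [e2]; linarith
    obtain ⟨u, hu⟩ := h2.choice
    obtain ⟨u₀, hu₀⟩ := exists_ulim U (hu.mono fun n hn => hn.1)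
    refine ⟨u₀, le_of_tendsto_of_tendsto (tendsto_const_nhds.sub
      (((tendsto_mul_sin hU hu₀).pow 2).div_const 2)).abs ha (hu.mono fun n hn => hn.2.1), ?_⟩
    have := le_of_tendsto_of_tendsto (tendsto_const_nhds.sub (hlim u u₀ hu₀)).abs hv0
      (hu.mono fun n hn => hn.2.2)
    rw [abs_nonpos_iff, sub_eq_zero, sq_rpow] at this
    exact this.symm
  · have h2 : ∀ᶠ n : ℕ in (U : Filter ℕ), ∃ w : ℝ, |w| ≤ 1 + (u ^ 2 + 2 * A) ∧
        |(n * Real.sin (u / n)) ^ 2 / 2 - w ^ 2 / 2| ≤ e n ∧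
        |κ n * (P n).eval (Real.cos (u / n)) - (w ^ 2) ^ l| ≤ v n := by
      filter_upwards [hP, hn1, heA] with n h1' h2 h3
      obtain ⟨y, hy, r1, r2⟩ := h1'.2.2 _ (Real.cos_mem_Icc (u / n))
      have r3 := hdiff _ _ _ _ (by positivity) (Real.cos_mem_Icc (u / n)) hy r1
      rw [hcos] at r3
      refine ⟨√((n : ℝ) ^ 2 * (1 - y ^ 2)), ?_, by rwa [Real.sq_sqrt (hnn n y hy)],
        by rwa [Real.sq_sqrt (hnn n y hy)]⟩
      rw [abs_of_nonneg (Real.sqrt_nonneg _)]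
      linarith [sqrt_le_one_add (hnn n y hy), (abs_le.1 r3).1, hsin n u h2]
    obtain ⟨w, hw⟩ := h2.choice
    obtain ⟨w₀, hw₀⟩ := exists_ulim U (hw.mono fun n hn => hn.1)
    refine ⟨w₀, le_of_tendsto_of_tendsto
      ((((tendsto_mul_sin hU (tendsto_const_nhds (x := u))).pow 2).div_const 2).sub
        ((hw₀.pow 2).div_const 2)).abs ha (hw.mono fun n hn => hn.2.1), ?_⟩
    have := le_of_tendsto_of_tendsto ((hlim (fun _ => u) u tendsto_const_nhds).sub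
      ((hw₀.pow 2).rpow_const (Or.inr h0.le))).abs hv0 (hw.mono fun n hn => hn.2.2)
    rwa [abs_nonpos_iff, sub_eq_zero, sq_rpow] at this

/-- The damped approximant in the variable `v = T (1 - x^2)`. -/
noncomputable def damp2 (g g₀ : ℝ → ℝ) (m : ℕ) (T v : ℝ) : ℝ :=
  g₀ v + (1 - v / T) ^ m * (g v - g₀ v)

lemma base_lower (h0 : 0 < l) (h1 : l ≤ 1) {v e c : ℝ} (hv : 0 < v) (hc : c ≤ v)
    (he : e * v ≤ l * c) : (v - c) ^ l ≤ v ^ l * (1 - e) := by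
  refine (rpow_tangent h0.le h1 hv (by linarith)).trans ?_
  have e4 : e ≤ l * c / v := (le_div_iff₀ hv).2 he
  have e8 : v ^ l * e ≤ v ^ l * (l * c / v) := by gcongr
  have : l * (v ^ l / v) * (v - c - v) = -(v ^ l * (l * c / v)) := by ring
  linarith

lemma theta_near (h0 : 0 < l) (h1 : l ≤ 1) {g g₀ : ℝ → ℝ} (hg : Continuous g)
    (hg₀ : Continuous g₀) {c c₁ s : ℝ} (hc : c < c₁) (hs : s < 1)
    (T1 : ∀ v, 0 ≤ v → ∃ y, 0 ≤ y ∧ |v - y| ≤ c ∧ g y = v ^ l)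
    (T2 : ∀ v, 0 ≤ v → ∃ y, 0 ≤ y ∧ |v - y| ≤ c ∧ g v = y ^ l)
    (T0 : ∀ v, 0 ≤ v → ∃ e : ℝ, 0 ≤ e ∧ e ≤ 1 ∧ e * v ^ 2 ≤ 12 ^ 4 ∧ g₀ v = v ^ l * (1 - e))
    (m : ℕ) : ∃ D : ℝ, 0 ≤ D ∧ ∀ᶠ T : ℝ in atTop, ∀ v ∈ Icc 0 (s * T),
      (∃ y, 0 ≤ y ∧ |v - y| ≤ c₁ ∧ |v ^ l - damp2 g g₀ m T y| ≤ D / T) ∧
      (∃ y, 0 ≤ y ∧ |v - y| ≤ c₁ ∧ |damp2 g g₀ m T v - y ^ l| ≤ D / T) := by
  have hc0 : 0 ≤ c := by
    obtain ⟨y, -, h, -⟩ := T1 0 le_rfl
    exact (abs_nonneg _).trans h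
  have hc1 : 0 < c₁ := by linarith
  set R := 1 + c₁ + 12 ^ 4 / (l * c₁) with hR
  have hR0 : 0 ≤ 12 ^ 4 / (l * c₁) := by positivity
  obtain ⟨C, hC⟩ := (isCompact_Icc (a := 0) (b := R + 2 * c₁)).exists_bound_of_continuousOn
    (hg.sub hg₀).continuousOn
  have hC0 : 0 ≤ C := (norm_nonneg _).trans (hC 0 ⟨le_rfl, by linarith⟩)
  have cor : ∀ T v, R ≤ v → v ≤ T →
      (v - c₁) ^ l - 0 ≤ damp2 g g₀ m T v ∧ damp2 g g₀ m T v ≤ (v + c₁) ^ l + 0 := by
    intro T v p1 p2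
    have hv : 0 < v := by linarith
    have w2 : v / T ≤ 1 := (div_le_one (by linarith)).2 p2
    have w3 : 0 ≤ v / T := div_nonneg hv.le (by linarith)
    have w0 : 0 ≤ (1 - v / T) ^ m := pow_nonneg (by linarith) _
    have w1 : (1 - v / T) ^ m ≤ 1 := pow_le_one₀ (by linarith) (by linarith)
    obtain ⟨y, r0, r1, r2⟩ := T2 v hv.le
    obtain ⟨e, e0, -, e2, e3⟩ := T0 v hv.le
    rw [abs_le] at r1
    have m1 : (v - c₁) ^ l ≤ g v := r2 ▸ Real.rpow_le_rpow (by linarith) (by linarith) h0.le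
    have m2 : g v ≤ (v + c₁) ^ l := r2 ▸ Real.rpow_le_rpow r0 (by linarith) h0.le
    have m3 : v ^ l ≤ (v + c₁) ^ l := Real.rpow_le_rpow hv.le (by linarith) h0.le
    have m4 : 0 ≤ v ^ l * e := mul_nonneg (Real.rpow_nonneg hv.le _) e0
    have m5 : (v - c₁) ^ l ≤ g₀ v := by
      rw [e3]
      refine base_lower h0 h1 hv (by linarith) (le_of_mul_le_mul_right ?_ hv)
      have e5 : 12 ^ 4 ≤ l * c₁ * v := by
        rw [← div_le_iff₀' (by positivity)]; linarith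
      calc e * v * v = e * v ^ 2 := by ring
        _ ≤ _ := by linarith
    have m6 : g₀ v ≤ (v + c₁) ^ l := by rw [e3]; linarith
    unfold damp2
    constructor
    · nlinarith [mul_nonneg w0 (sub_nonneg.2 m1), mul_nonneg (sub_nonneg.2 w1) (sub_nonneg.2 m5)]
    · nlinarith [mul_nonneg w0 (sub_nonneg.2 m2), mul_nonneg (sub_nonneg.2 w1) (sub_nonneg.2 m6)]
  refine ⟨m * (R + 2 * c₁) * C, by positivity, ?_⟩
  filter_upwards [eventually_ge_atTop (R + 2 * c₁), eventually_ge_atTop (c₁ / (1 - s))]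
    with T hT hT2 v hv
  have hT0 : 0 < T := by linarith
  have hT3 : s * T + c₁ ≤ T := by
    rw [div_le_iff₀ (by linarith)] at hT2; linarith
  have d1 : 0 ≤ m * (R + 2 * c₁) * C / T := by positivity
  rcases le_total v (R + c₁) with hu1 | hu1
  · have near : ∀ y, 0 ≤ y → |v - y| ≤ c₁ →
        |damp2 g g₀ m T y - g y| ≤ m * (R + 2 * c₁) * C / T := by
      intro y y0 hy
      rw [abs_le] at hy
      have y2 : y ≤ R + 2 * c₁ := by linarith
      have w2 : y / T ≤ 1 := (div_le_one hT0).2 (by linarith)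
      have w3 : 0 ≤ y / T := by positivity
      have w1 : (1 - y / T) ^ m ≤ 1 := pow_le_one₀ (by linarith) (by linarith)
      have w4 := one_add_mul_le_pow (a := -(y / T)) (by linarith) m
      have e1 : damp2 g g₀ m T y - g y = -((1 - (1 - y / T) ^ m) * (g y - g₀ y)) := by
        unfold damp2; ring
      rw [e1, abs_neg, abs_mul, abs_of_nonneg (by linarith)]
      have e2 : 1 - (1 - y / T) ^ m ≤ m * ((R + 2 * c₁) / T) := by
        have : (m : ℝ) * (y / T) ≤ m * ((R + 2 * c₁) / T) := by gcongr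
        rw [← sub_eq_add_neg] at w4
        linarith
      calc _ ≤ m * ((R + 2 * c₁) / T) * C := by
            gcongr
            exact hC y ⟨y0, y2⟩
        _ = _ := by ring
    constructor
    · obtain ⟨y, r0, r1, r2⟩ := T1 v hv.1
      exact ⟨y, r0, by linarith, by rw [← r2, abs_sub_comm]; exact near y r0 (by linarith)⟩
    · obtain ⟨y, r0, r1, r2⟩ := T2 v hv.1
      exact ⟨y, r0, by linarith, by rw [← r2]; exact near v hv.1 (by simpa using hc1.le)⟩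
  · have hv2 := hv.2
    constructor
    · obtain ⟨y, hy, r⟩ := ivt_near (f := damp2 g g₀ m T) (p := v - c₁) (q := v + c₁)
        (c := v ^ l) (κ := 0) (by linarith) (by unfold damp2; fun_prop) le_rfl
        (by have := (cor T (v - c₁) (by linarith) (by linarith)).2
            rw [sub_add_cancel] at this; linarith)
        (by have := (cor T (v + c₁) (by linarith) (by linarith)).1
            rw [add_sub_cancel_right] at this; linarith)
      exact ⟨y, by linarith [hy.1], abs_le.2 ⟨by linarith [hy.2], by linarith [hy.1]⟩,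
        by linarith⟩
    · obtain ⟨y, hy, r⟩ := ivt_near (f := fun x => x ^ l) (p := v - c₁) (q := v + c₁)
        (c := damp2 g g₀ m T v) (κ := 0) (by linarith)
        (Real.continuous_rpow_const h0.le).continuousOn le_rfl
        (cor T v (by linarith) (by linarith)).1 (cor T v (by linarith) (by linarith)).2
      exact ⟨y, by linarith [hy.1], abs_le.2 ⟨by linarith [hy.2], by linarith [hy.1]⟩,
        by linarith⟩

lemma theta_mid (h0 : 0 < l) (h1 : l ≤ 1) {g g₀ : ℝ → ℝ} {c s ζ : ℝ} (hs0 : 0 < s)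
    (hζ : 0 < ζ) (T2 : ∀ v, 0 ≤ v → ∃ y, 0 ≤ y ∧ |v - y| ≤ c ∧ g v = y ^ l)
    (T0 : ∀ v, 0 ≤ v → ∃ e : ℝ, 0 ≤ e ∧ e ≤ 1 ∧ e * v ^ 2 ≤ 12 ^ 4 ∧ g₀ v = v ^ l * (1 - e)) :
    ∃ m : ℕ, ∀ᶠ T : ℝ in atTop, ∀ v ∈ Icc (s * T) T,
      |damp2 g g₀ m T v - v ^ l| ≤ ζ * (T ^ l / T) := by
  have hc0 : 0 ≤ c := by
    obtain ⟨y, -, h, -⟩ := T2 0 le_rfl
    exact (abs_nonneg _).trans h
  obtain ⟨m, hm⟩ := exists_pow_lt_of_lt_one (x := ζ / 2 / (4 / s * c + 1)) (y := 1 - s)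
    (by positivity) (by linarith)
  refine ⟨m, ?_⟩
  filter_upwards [eventually_gt_atTop 0, eventually_ge_atTop (2 * c / s),
    eventually_ge_atTop (12 ^ 4 / (ζ / 2 * s ^ 2))] with T hT hT2 hT3 v hv
  rw [div_le_iff₀ hs0] at hT2
  rw [div_le_iff₀ (by positivity)] at hT3
  have hsT : 0 < s * T := by positivity
  have hv0 : 0 < v := lt_of_lt_of_le hsT hv.1
  have hv1 := hv.1
  have hv2 := hv.2
  have hTl : 0 < T ^ l := by positivity
  obtain ⟨y, r0, r1, r2⟩ := T2 v hv0.le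
  obtain ⟨e, e0, -, e2, e3⟩ := T0 v hv0.le
  have r3 := abs_le.1 r1
  have y0 : s * T / 2 ≤ y := by linarith
  have y1 : y ≤ 2 * T := by nlinarith
  have hsl : ∀ x, s * T / 2 ≤ x → x ≤ 2 * T → l * (x ^ l / x) ≤ 4 / s * (T ^ l / T) := by
    intro x x0 x1
    have x2 : 0 < x := by linarith
    have e5 : x ^ l ≤ 2 * T ^ l := by
      refine (Real.rpow_le_rpow x2.le x1 h0.le).trans ?_
      rw [Real.mul_rpow zero_le_two hT.le]
      gcongr
      exact rpow_le_self' h1 one_le_two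
    calc l * (x ^ l / x) ≤ 1 * (2 * T ^ l / (s * T / 2)) := by gcongr
      _ = _ := by field_simp; ring
  have t1 : |g v - v ^ l| ≤ 4 / s * (T ^ l / T) * c := by
    have s1 := rpow_tangent h0.le h1 hv0 r0
    have s2 := rpow_tangent h0.le h1 (by linarith : 0 < y) hv0.le
    have s3 := hsl v (by linarith) (by linarith)
    have s4 := hsl y y0 y1
    have s5 : l * (v ^ l / v) * (y - v) ≤ 4 / s * (T ^ l / T) * c :=
      (mul_le_mul_of_nonneg_left (by linarith : y - v ≤ c) (by positivity)).trans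
        (mul_le_mul_of_nonneg_right s3 hc0)
    have s6 : l * (y ^ l / y) * (v - y) ≤ 4 / s * (T ^ l / T) * c :=
      (mul_le_mul_of_nonneg_left r3.2 (by positivity)).trans (mul_le_mul_of_nonneg_right s4 hc0)
    rw [r2, abs_le]
    constructor <;> linarith
  have t2 : |g₀ v - v ^ l| ≤ ζ / 2 * (T ^ l / T) := by
    have : g₀ v - v ^ l = -(v ^ l * e) := by rw [e3]; ring
    rw [this, abs_neg, abs_of_nonneg (by positivity)]
    have s1 : v ^ l ≤ T ^ l := Real.rpow_le_rpow hv0.le hv2 h0.le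
    have s2 : e ≤ ζ / 2 / T := by
      rw [le_div_iff₀ hT]
      refine le_of_mul_le_mul_right ?_ (by positivity : 0 < s ^ 2 * T)
      calc e * T * (s ^ 2 * T) = e * (s * T) ^ 2 := by ring
        _ ≤ e * v ^ 2 := by gcongr
        _ ≤ _ := by linarith
    calc v ^ l * e ≤ T ^ l * (ζ / 2 / T) := by gcongr
      _ = _ := by ring
  have w2 : v / T ≤ 1 := (div_le_one hT).2 hv2
  have w3 : s ≤ v / T := (le_div_iff₀ hT).2 hv1
  have w0 : 0 ≤ (1 - v / T) ^ m := pow_nonneg (by linarith) _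
  have w1 : (1 - v / T) ^ m ≤ 1 := pow_le_one₀ (by linarith) (by linarith)
  have w4 : (1 - v / T) ^ m ≤ ζ / 2 / (4 / s * c + 1) :=
    (pow_le_pow_left₀ (by linarith) (by linarith) m).trans hm.le
  have e1 : damp2 g g₀ m T v - v ^ l =
      (1 - (1 - v / T) ^ m) * (g₀ v - v ^ l) + (1 - v / T) ^ m * (g v - v ^ l) := by
    unfold damp2; ring
  rw [e1]
  refine (abs_add_le _ _).trans ?_
  rw [abs_mul, abs_mul, abs_of_nonneg w0, abs_of_nonneg (by linarith : 0 ≤ 1 - (1 - v / T) ^ m)]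
  have z1 : (1 - (1 - v / T) ^ m) * |g₀ v - v ^ l| ≤ ζ / 2 * (T ^ l / T) :=
    (mul_le_of_le_one_left (abs_nonneg _) (by linarith)).trans t2
  have z2 : (1 - v / T) ^ m * |g v - v ^ l| ≤ ζ / 2 * (T ^ l / T) := by
    calc _ ≤ ζ / 2 / (4 / s * c + 1) * ((4 / s * c + 1) * (T ^ l / T)) := by
          gcongr
          have : 0 ≤ T ^ l / T := by positivity
          linarith
      _ = _ := by field_simp
  linarith

end Pool.Agent.P.MP_7e6317_an
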