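import Pool.Agent.P.MP_7e6317_an.Theta

/-!
The upper bound and the limit theorem for `(1 - x^2)^l`.
-/

namespace Pool.Agent.P.MP_7e6317_an

open Set Filter Topology Complex Polynomial

variable {l : ℝ}

lemma even_sqrt_sq {H : ℂ → ℂ} (he : ∀ z, H (-z) = H z) (u : ℝ) :
    H ((√(u ^ 2) : ℝ) : ℂ) = H u := by
  rw [Real.sqrt_sq_eq_abs]
  rcases le_total 0 u with h | h
  · rw [abs_of_nonneg h]
  · rw [abs_of_nonpos h, Complex.ofReal_neg, he]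

lemma abs_sqrt_rpow {v : ℝ} (hv : 0 ≤ v) : |√v| ^ (2 * l) = v ^ l := by
  rw [← sq_rpow, Real.sq_sqrt hv]

lemma half_sub (p q : ℝ) : |p - q| = 2 * |p / 2 - q / 2| := by
  rw [← sub_div, abs_div, abs_two]; ring

lemma conv_point {T x y r c : ℝ} (hT : 0 < T) (hr : 0 < r)
    (hrx : r ≤ |x|) (hy : 0 ≤ y) (hry : r ^ 2 ≤ 1 - y / T) (h : |T * (1 - x ^ 2) - y| ≤ c) :
    ∃ x' ∈ Icc (-1 : ℝ) 1, T * (1 - x' ^ 2) = y ∧ |x - x'| ≤ c / (2 * r) / T := by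
  set p := √(1 - y / T) with hp
  have hp2 : p ^ 2 = 1 - y / T := Real.sq_sqrt (by nlinarith)
  have hp0 : r ≤ p := Real.le_sqrt_of_sq_le hry
  have hyT : 0 ≤ y / T := by positivity
  have hp1 : p ≤ 1 := Real.sqrt_le_one.2 (by linarith)
  have hpy : T * (1 - p ^ 2) = y := by rw [hp2]; field_simp; ring
  have key : ∀ z : ℝ, r ≤ z → z ^ 2 = x ^ 2 → |z - p| ≤ c / (2 * r) / T := by
    intro z hz hz2
    have e1 : T * (1 - x ^ 2) - y = -(T * (z - p) * (z + p)) := by rw [← hpy, ← hz2]; ring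
    rw [e1, abs_neg, abs_mul, abs_mul, abs_of_pos hT, abs_of_pos (by linarith : 0 < z + p)] at h
    rw [le_div_iff₀ hT, le_div_iff₀ (by positivity)]
    calc |z - p| * T * (2 * r) ≤ |z - p| * T * (z + p) := by gcongr; linarith
      _ ≤ c := by linarith
  rcases le_total 0 x with h0 | h0
  · rw [abs_of_nonneg h0] at hrx
    exact ⟨p, ⟨by linarith, hp1⟩, hpy, key x hrx rfl⟩
  · rw [abs_of_nonpos h0] at hrx
    refine ⟨-p, ⟨by linarith, by linarith⟩, by rw [neg_sq, hpy], ?_⟩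
    have := key (-x) hrx (neg_sq x)
    rwa [← abs_neg, neg_sub', neg_neg] at this

lemma theta_upper (h0 : 0 < l) (h1 : l < 1) {α : ℝ} (hα : 0 < α) {H₀ : ℂ → ℂ}
    (hH₀ : TypeOne H₀) (he₀ : ∀ z, H₀ (-z) = H₀ z)
    (H0 : ∀ u : ℝ, ∃ e : ℝ, 0 ≤ e ∧ e ≤ 1 ∧ e * u ^ 4 ≤ 12 ^ 4 ∧
      (H₀ u).re = |u| ^ (2 * l) * (1 - e))
    {a : ℝ} {H : ℂ → ℂ} (hH : TypeOne H) (he : ∀ z, H (-z) = H z) (hN : NearSq l H a)
    {a' : ℝ} (ha : a < a') :
    ∀ᶠ N : ℕ in atTop, α * (N : ℝ) ^ 2 * bestE N α (theta l) ≤ a' := by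
  have ha0 : 0 ≤ a := by
    obtain ⟨y, h, -⟩ := hN.1 0
    exact (abs_nonneg _).trans h
  obtain ⟨a₂, h2, h2'⟩ := exists_between ha
  obtain ⟨a₁, h3, h3'⟩ := exists_between h2
  have p1 : 0 < a₁ := by linarith
  have p2 : 0 < a₂ := by linarith
  have p3 : 0 < a' := by linarith
  set ρ := √(a₂ / a') with hρ
  have hρ2 : ρ ^ 2 = a₂ / a' := Real.sq_sqrt (by positivity)
  have hρ0 : 0 < ρ := by positivity
  have hρ1 : ρ < 1 := by
    rw [hρ, Real.sqrt_lt' one_pos, one_pow]; exact (div_lt_one p3).2 h2'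
  set r := a₁ / a₂ with hr
  have hr0 : 0 < r := by positivity
  have hr1 : r < 1 := (div_lt_one p2).2 h3'
  set s := (1 - r ^ 2) / 2 with hs
  have hs0 : 0 < s := by nlinarith
  have hs1 : s < 1 := by nlinarith
  set g : ℝ → ℝ := fun v => (H (√v : ℝ)).re with hg
  set g₀ : ℝ → ℝ := fun v => (H₀ (√v : ℝ)).re with hg₀
  have T1 : ∀ v, 0 ≤ v → ∃ y, 0 ≤ y ∧ |v - y| ≤ 2 * a ∧ g y = v ^ l := by
    intro v hv
    obtain ⟨u, r1, r2⟩ := hN.1 √v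
    rw [Real.sq_sqrt hv] at r1
    exact ⟨u ^ 2, by positivity, by rw [half_sub]; linarith,
      by simp only [hg, even_sqrt_sq he, r2, abs_sqrt_rpow hv]⟩
  have T2 : ∀ v, 0 ≤ v → ∃ y, 0 ≤ y ∧ |v - y| ≤ 2 * a ∧ g v = y ^ l := by
    intro v hv
    obtain ⟨u, r1, r2⟩ := hN.2 √v
    rw [Real.sq_sqrt hv] at r1
    exact ⟨u ^ 2, by positivity, by rw [half_sub]; linarith, by simp only [hg, r2, sq_rpow]⟩
  have T0 : ∀ v, 0 ≤ v → ∃ e : ℝ, 0 ≤ e ∧ e ≤ 1 ∧ e * v ^ 2 ≤ 12 ^ 4 ∧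
      g₀ v = v ^ l * (1 - e) := by
    intro v hv
    obtain ⟨e, e0, e1, e2, e3⟩ := H0 √v
    refine ⟨e, e0, e1, ?_, by simp only [hg₀, e3, abs_sqrt_rpow hv]⟩
    rwa [show (4 : ℕ) = 2 * 2 from rfl, pow_mul, Real.sq_sqrt hv] at e2
  obtain ⟨m, hm⟩ := theta_mid h0 h1.le hs0 (ζ := a₂ / α / 2) (by positivity) T2 T0
  obtain ⟨D, hD0, hD⟩ := theta_near h0 h1.le (g := g) (g₀ := g₀) (hH.cont.comp Real.continuous_sqrt)
    (hH₀.cont.comp Real.continuous_sqrt) (c₁ := 2 * a₁) (by linarith) hs1 T1 T2 T0 m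
  have hf : ∀ u : ℝ, |u| ^ (2 * l) ≤ 1 + u ^ 2 := fun u => by
    rw [← sq_rpow]; exact rpow_le_one_add h0.le h1.le (by positivity)
  have hA := poly_approx_sq hH he (M := 1 + 2 * a) (fun u => by
    obtain ⟨y, r1, r2⟩ := hN.2 u
    rw [r2, abs_of_nonneg (by positivity)]
    nlinarith [hf y, sq_nonneg u, abs_le.1 r1]) hρ0 hρ1 (2 * m) one_pos
  have hB := poly_approx_sq hH₀ he₀ (M := 1) (fun u => by
    obtain ⟨e, e0, e1, -, e3⟩ := H0 u
    have : 0 ≤ |u| ^ (2 * l) := by positivity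
    rw [e3, abs_of_nonneg (mul_nonneg this (by linarith))]
    nlinarith [hf u]) hρ0 hρ1 (2 * m) one_pos
  have ht : Tendsto (fun N : ℕ => (ρ * N) ^ 2) atTop atTop :=
    (tendsto_pow_atTop two_ne_zero).comp (tendsto_natCast_atTop_atTop.const_mul_atTop hρ0)
  have ht2 : Tendsto (fun N : ℕ => a₂ / α / 2 * ((ρ * N) ^ 2) ^ l) atTop atTop :=
    ((tendsto_rpow_atTop h0).comp ht).const_mul_atTop (by positivity)
  filter_upwards [hA, hB, ht.eventually hD, ht.eventually hm, eventually_ge_atTop 1,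
    ht2.eventually_ge_atTop (D + 1), ht.eventually_ge_atTop (2 * a₁ / s)]
    with N ⟨P₁, q1, q2⟩ ⟨P₀, q3, q4⟩ hnear hmid hN1 hbig hbig2
  have hN0 : (0 : ℝ) < N := by exact_mod_cast hN1
  set T := (ρ * N) ^ 2 with hT
  have hT0 : 0 < T := by positivity
  have hTN : T ≤ (N : ℝ) ^ 2 := by
    rw [hT]; gcongr; exact mul_le_of_le_one_left hN0.le hρ1.le
  have hl : 0 < T ^ l := by positivity
  rw [div_le_iff₀ hs0] at hbig2
  set P : ℝ[X] := C (T ^ l)⁻¹ * (P₀ + X ^ (2 * m) * (P₁ - P₀)) with hP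
  have hdeg : P.natDegree ≤ N := by
    refine (natDegree_C_mul_le _ _).trans ((natDegree_add_le _ _).trans (max_le (by omega) ?_))
    refine natDegree_mul_le.trans ?_
    have e1 : (X ^ (2 * m) : ℝ[X]).natDegree ≤ 2 * m := natDegree_X_pow_le _
    have e2 : (P₁ - P₀).natDegree ≤ max P₁.natDegree P₀.natDegree := natDegree_sub_le _ _
    omega
  have happ : ∀ x ∈ Icc (-1 : ℝ) 1,
      |T ^ l * P.eval x - damp2 g g₀ m T (T * (1 - x ^ 2))| ≤ 1 / T := by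
    intro x hx
    have e0 : √(T * (1 - x ^ 2)) = ρ * N * √(1 - x ^ 2) := by
      rw [hT, Real.sqrt_mul (by positivity), Real.sqrt_sq (by positivity)]
    have e1 := q2 _ hx
    have e2 := q4 _ hx
    rw [← e0] at e1 e2
    have e3 : 1 / (N : ℝ) ^ 2 ≤ 1 / T := by gcongr
    have w0 : 0 ≤ (x ^ 2) ^ m := by positivity
    have w1 : (x ^ 2) ^ m ≤ 1 := pow_le_one₀ (by positivity) (by nlinarith [hx.1, hx.2])
    have e5 : 1 - T * (1 - x ^ 2) / T = x ^ 2 := by field_simp; ring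
    have e4 : T ^ l * P.eval x - damp2 g g₀ m T (T * (1 - x ^ 2)) =
        (1 - (x ^ 2) ^ m) * (P₀.eval x - g₀ (T * (1 - x ^ 2))) +
          (x ^ 2) ^ m * (P₁.eval x - g (T * (1 - x ^ 2))) := by
      simp only [hP, damp2, eval_mul, eval_C, eval_add, eval_sub, eval_pow, eval_X, e5, pow_mul]
      rw [← mul_assoc, mul_inv_cancel₀ hl.ne']; ring
    rw [e4]
    refine (abs_add_le _ _).trans ?_
    rw [abs_mul, abs_mul, abs_of_nonneg w0, abs_of_nonneg (by linarith : 0 ≤ 1 - (x ^ 2) ^ m)]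
    have z1 := mul_le_mul_of_nonneg_left (e2.trans e3) (by linarith : 0 ≤ 1 - (x ^ 2) ^ m)
    have z2 := mul_le_mul_of_nonneg_left (e1.trans e3) w0
    simp only [hg, hg₀]
    linarith
  have hε : a' / (α * (N : ℝ) ^ 2) = a₂ / (α * T) := by
    rw [hT, mul_pow, hρ2]; field_simp
  have hb1 : D / T + 1 / T ≤ a₂ / α / 2 * (T ^ l / T) := by
    rw [← add_div, ← mul_div_assoc]; gcongr
  have hb2 : 0 ≤ D / T := by positivity
  have hb3 : 0 ≤ 1 / T := by positivity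
  have hvert : ∀ p q : ℝ, |T ^ l * p - T ^ l * q| ≤ 2 * (a₂ / α / 2 * (T ^ l / T)) →
      |p - q| ≤ a₂ / (α * T) := by
    intro p q hpq
    rw [← mul_sub, abs_mul, abs_of_pos hl] at hpq
    refine le_of_mul_le_mul_left (hpq.trans (le_of_eq ?_)) hl
    field_simp
  have hhor : 2 * a₁ / (2 * r) / T = α * (a₂ / (α * T)) := by rw [hr]; field_simp
  have hconv : ∀ x ∈ Icc (-1 : ℝ) 1, T * (1 - x ^ 2) ≤ s * T → ∀ y, 0 ≤ y →
      |T * (1 - x ^ 2) - y| ≤ 2 * a₁ →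
      ∃ x' ∈ Icc (-1 : ℝ) 1, T * (1 - x' ^ 2) = y ∧ |x - x'| ≤ α * (a₂ / (α * T)) := by
    intro x _ hxs y y0 hy
    rw [← hhor]
    have e1 : 1 - x ^ 2 ≤ s := le_of_mul_le_mul_left (by linarith) hT0
    refine conv_point hT0 hr0 ?_ y0 ?_ hy
    · exact (le_abs_self r).trans (sq_le_sq.1 (by linarith))
    · have e2 : y / T ≤ 2 * s := by
        rw [div_le_iff₀ hT0]; linarith [(abs_le.1 hy).1]
      linarith
  have hv0 : ∀ x ∈ Icc (-1 : ℝ) 1, 0 ≤ T * (1 - x ^ 2) ∧ T * (1 - x ^ 2) ≤ T := fun x hx =>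
    ⟨mul_nonneg hT0.le (by nlinarith [hx.1, hx.2]),
      mul_le_of_le_one_right hT0.le (by nlinarith [sq_nonneg x])⟩
  have hτ : ∀ x : ℝ, |x - x| ≤ α * (a₂ / (α * T)) := fun x => by
    rw [sub_self, abs_zero]; positivity
  rw [← le_div_iff₀' (by positivity), hε]
  refine bestE_le hα hdeg (fun x hx => ?_) fun x hx => ?_ <;>
    rcases le_total (T * (1 - x ^ 2)) (s * T) with hc | hc
  · obtain ⟨y, r1, r2, r3⟩ := (hnear _ ⟨(hv0 x hx).1, hc⟩).1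
    obtain ⟨x', s1, s2, s3⟩ := hconv x hx hc y r1 r2
    refine ⟨x', s1, s3, hvert _ _ ?_⟩
    have e1 := happ x' s1
    rw [s2] at e1
    rw [theta_hom hT0.le hx]
    rw [abs_le] at r3 e1 ⊢
    constructor <;> linarith
  · refine ⟨x, hx, hτ x, hvert _ _ ?_⟩
    have e1 := happ x hx
    have e2 := hmid _ ⟨hc, (hv0 x hx).2⟩
    rw [theta_hom hT0.le hx]
    rw [abs_le] at e2 e1 ⊢
    constructor <;> linarith
  · obtain ⟨y, r1, r2, r3⟩ := (hnear _ ⟨(hv0 x hx).1, hc⟩).2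
    obtain ⟨x', s1, s2, s3⟩ := hconv x hx hc y r1 r2
    refine ⟨x', s1, s3, hvert _ _ ?_⟩
    have e1 := happ x hx
    rw [theta_hom hT0.le s1, s2]
    rw [abs_le] at r3 e1 ⊢
    constructor <;> linarith
  · refine ⟨x, hx, hτ x, hvert _ _ ?_⟩
    have e1 := happ x hx
    have e2 := hmid _ ⟨hc, (hv0 x hx).2⟩
    rw [theta_hom hT0.le hx]
    rw [abs_le] at e2 e1 ⊢
    constructor <;> linarith

lemma theta_feasible (h0 : 0 < l) (h1 : l < 1) {H₀ : ℂ → ℂ} (hH₀ : TypeOne H₀)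
    (H0 : ∀ u : ℝ, ∃ e : ℝ, 0 ≤ e ∧ e ≤ 1 ∧ e * u ^ 4 ≤ 12 ^ 4 ∧
      (H₀ u).re = |u| ^ (2 * l) * (1 - e)) : ∃ a, NearSq l H₀ a := by
  set c := 1 + 12 ^ 4 / l with hc
  have hc1 : 1 ≤ c := by
    have : 0 ≤ 12 ^ 4 / l := by positivity
    linarith
  have up : ∀ u : ℝ, (H₀ u).re ≤ (u ^ 2) ^ l := fun u => by
    obtain ⟨e, e0, -, -, e3⟩ := H0 u
    have : 0 ≤ |u| ^ (2 * l) := by positivity
    rw [e3, sq_rpow]; nlinarith
  have lo : ∀ u : ℝ, (max (u ^ 2 - c) 0) ^ l ≤ (H₀ u).re := fun u => by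
    obtain ⟨e, e0, e1, e2, e3⟩ := H0 u
    rw [e3, ← sq_rpow]
    rcases le_total (u ^ 2) c with hva | hva
    · rw [max_eq_right (by linarith), Real.zero_rpow h0.ne']
      exact mul_nonneg (by positivity) (by linarith)
    · rw [max_eq_left (by linarith)]
      refine base_lower h0 h1.le (by linarith) hva ?_
      have e5 : 12 ^ 4 ≤ l * c := by rw [← div_le_iff₀' h0]; linarith
      have e6 : u ^ 2 ≤ (u ^ 2) ^ 2 := le_self_pow₀ (by linarith) (by norm_num)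
      calc e * u ^ 2 ≤ e * (u ^ 2) ^ 2 := by gcongr
        _ = e * u ^ 4 := by ring
        _ ≤ _ := by linarith
  refine ⟨c / 2, fun w => ?_, fun u => ?_⟩
  · have e1 := lo √(w ^ 2 + c)
    rw [Real.sq_sqrt (by positivity), add_sub_cancel_right, max_eq_left (by positivity)] at e1
    have e2 := up √(w ^ 2)
    rw [Real.sq_sqrt (by positivity)] at e2
    obtain ⟨y, hy, e⟩ := intermediate_value_Icc (by linarith : w ^ 2 ≤ w ^ 2 + c)
      (hH₀.cont.comp Real.continuous_sqrt).continuousOn ⟨e2, e1⟩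
    refine ⟨√y, ?_, by rw [← sq_rpow]; exact e⟩
    rw [Real.sq_sqrt (le_trans (by positivity) hy.1)]
    exact abs_le.2 ⟨by linarith [hy.2], by linarith [hy.1]⟩
  · obtain ⟨y, hy, e⟩ := intermediate_value_Icc
      (max_le (by linarith) (by positivity) : max (u ^ 2 - c) 0 ≤ u ^ 2)
      (Real.continuous_rpow_const h0.le).continuousOn ⟨lo u, up u⟩
    have y0 : 0 ≤ y := (le_max_right _ _).trans hy.1
    refine ⟨√y, ?_, by rw [abs_sqrt_rpow y0]; exact e.symm⟩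
    rw [Real.sq_sqrt y0]
    exact abs_le.2 ⟨by linarith [hy.2], by linarith [hy.1, le_max_left (u ^ 2 - c) 0]⟩

lemma base_typeOne {m : ℝ} (h0 : 0 < m) (h2 : m < 2) : ∃ G : ℂ → ℂ, TypeOne G ∧
    (∀ z, G (-z) = G z) ∧ ∀ u : ℝ, ∃ e : ℝ, 0 ≤ e ∧ e ≤ 1 ∧ e * u ^ 4 ≤ 12 ^ 4 ∧
      (G u).re = |u| ^ m * (1 - e) := by
  obtain ⟨G, g1, g2, g3, g4⟩ := exists_base h0 h2
  refine ⟨G, ⟨g1, fun x => ?_, g2⟩, g3, fun u => ?_⟩
  · obtain ⟨e, -, -, -, h⟩ := g4 x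
    rw [h, Complex.ofReal_im]
  · obtain ⟨e, e0, e1, e2, h⟩ := g4 u
    exact ⟨e, e0, e1, e2, by rw [h, Complex.ofReal_re]⟩

lemma theta_limit (h0 : 0 < l) (h1 : l < 1) {α : ℝ} (hα : 0 < α) :
    ∃ c, 0 < c ∧ IsLeast {a | ∃ H, TypeOne H ∧ (∀ z, H (-z) = H z) ∧ NearSq l H a} c ∧
      Tendsto (fun n : ℕ => α * (n : ℝ) ^ 2 * bestE n α (theta l)) atTop (𝓝 c) := by
  obtain ⟨H₀, g1, g2, g3⟩ := base_typeOne (m := 2 * l) (by linarith) (by linarith)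
  refine limit_of (fun U a e p1 p2 p3 => theta_lower h0 h1 hα U a e p1 p2 p3)
    (fun a ⟨H, p1, p2, p3⟩ a' p4 => theta_upper h0 h1 hα g1 g2 g3 p1 p2 p3 p4) ?_ ?_
  · obtain ⟨a, ha⟩ := theta_feasible h0 h1 g1 g3
    exact ⟨a, H₀, g1, g2, ha⟩
  · rintro a ⟨H, p1, -, p3⟩
    by_contra hcon
    refine not_entire_rpow p1.1 (m := 2 * l) (by linarith) (by linarith) fun u => ?_
    obtain ⟨w, r1, r2⟩ := p3.2 u
    have := abs_nonpos_iff.1 (r1.trans (not_lt.1 hcon))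
    rw [r2, ← sq_rpow, ← sq_rpow]
    congr 1; linarith

end Pool.Agent.P.MP_7e6317_an
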